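import Mathlib

/-!
# Query algorithms that start from highly mixed states

`Run X κ` : one run of a quantum query circuit whose initial density matrix `ρ` satisfies
`ρ ≤ (κ / D) · 1`, where `D` is the dimension of the whole space (address register, target bit,
work register).  If `ρ` consists of `k` clean qubits and a maximally mixed rest, then `κ = 2 ^ k`.
Between the queries arbitrary unital quantum channels are applied (unitaries, mixtures of
unitaries, dephasing and depolarising noise, non-selective measurements, ...).

`Protocol X κ` : a classical computer that adaptively asks classical queries and executes such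
runs, each run starting from a fresh initial state.
-/

namespace Pool.Agent.H18.Clean

open Matrix
open scoped ComplexOrder

/-- Computational basis states: address `x`, target bit `b`, work register `z`. -/
abbrev Bas (X : Type) (w : ℕ) : Type := X × Bool × Fin w

/-- Operators on the space of address register, target bit and work register. -/
abbrev Op (X : Type) (w : ℕ) : Type := Matrix (Bas X w) (Bas X w) ℂ

/-- The bit oracle of `f`: `|x, b, z⟩ ↦ |x, b ⊕ f x, z⟩`. -/
def oracle {X : Type} [DecidableEq X] (w : ℕ) (f : X → Bool) : Op X w :=
  Matrix.of fun i j => if i = (j.1, xor j.2.1 (f j.1), j.2.2) then 1 else 0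

/-- One run of a quantum query circuit with `T` oracle queries and initial purity `κ`.
Channel number `t` (`0 ≤ t ≤ T`) has the Kraus operators `A t 0, …, A t (r - 1)`; it is trace
preserving and unital.  The initial density matrix `ρ` satisfies `ρ ≤ (κ / D) · 1`, where `D` is
the dimension.  At the end there is a measurement (POVM) with `m` outcomes. -/
structure Run (X : Type) [Fintype X] [DecidableEq X] (κ : ℝ) : Type where
  w : ℕ
  T : ℕ
  r : ℕ
  A : ℕ → Fin r → Op X w
  A_tp : ∀ t, ∑ i, (A t i)ᴴ * A t i = 1
  A_unital : ∀ t, ∑ i, A t i * (A t i)ᴴ = 1
  ρ : Op X w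
  ρ_pos : ρ.PosSemidef
  ρ_trace : ρ.trace = 1
  ρ_pure : (((κ / (Fintype.card (Bas X w) : ℝ) : ℝ) : ℂ) • (1 : Op X w) - ρ).PosSemidef
  m : ℕ
  M : Fin m → Op X w
  M_pos : ∀ o, (M o).PosSemidef
  M_sum : ∑ o, M o = 1

variable {X : Type} [Fintype X] [DecidableEq X] {κ : ℝ}

/-- The channel number `t`. -/
def Run.chan (R : Run X κ) (t : ℕ) (σ : Op X R.w) : Op X R.w :=
  ∑ i, R.A t i * σ * (R.A t i)ᴴ

/-- The density matrix after `t` queries to `f` (and the channels `0, …, t`). -/
noncomputable def Run.state (R : Run X κ) (f : X → Bool) : ℕ → Op X R.w
  | 0 => R.chan 0 R.ρ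
  | t + 1 => R.chan (t + 1) (oracle R.w f * R.state f t * (oracle R.w f)ᴴ)

/-- The probability of outcome `o` when the oracle is `f`. -/
noncomputable def Run.prob (R : Run X κ) (f : X → Bool) (o : Fin R.m) : ℝ :=
  ((R.M o * R.state f R.T).trace).re

/-- Adaptive protocols: answer, ask a classical query, or execute a run and continue
according to its outcome. -/
inductive Protocol (X : Type) [Fintype X] [DecidableEq X] (κ : ℝ) : Type
  | answer (a : Bool) : Protocol X κ
  | query (x : X) (next : Bool → Protocol X κ) : Protocol X κ
  | run (R : Run X κ) (next : Fin R.m → Protocol X κ) : Protocol X κ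

/-- The probability that the protocol answers `true` when the oracle is `f`. -/
noncomputable def Protocol.accept (f : X → Bool) : Protocol X κ → ℝ
  | .answer a => if a then 1 else 0
  | .query x next => (next (f x)).accept f
  | .run R next => ∑ o, R.prob f o * (next o).accept f

/-- `P.Uses c q`: along every path the protocol asks at most `c` classical queries and its
runs make at most `q` quantum queries in total. -/
def Protocol.Uses : Protocol X κ → ℕ → ℕ → Prop
  | .answer _, _, _ => True
  | .query _ next, c, q => ∃ c', c' + 1 ≤ c ∧ ∀ b, (next b).Uses c' q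
  | .run R next, c, q => ∃ q', q' + R.T ≤ q ∧ ∀ o, (next o).Uses c q'

/-- `f` with its values on the block `B` flipped. -/
def flipOn (f : X → Bool) (B : Finset X) : X → Bool := fun x => xor (f x) (decide (x ∈ B))

end Pool.Agent.H18.Clean
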