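import Mathlib

/-!
# Matrix inequalities used by the clean-qubit lower bound
-/

namespace Pool.Agent.H18.Clean

open Matrix
open scoped ComplexOrder MatrixOrder

variable {n : Type} [Fintype n] [DecidableEq n]

omit [DecidableEq n] in
theorem trace_mul_re_nonneg {A B : Matrix n n ℂ} (hA : A.PosSemidef) (hB : B.PosSemidef) :
    0 ≤ ((A * B).trace).re := by
  classical
  obtain ⟨C, rfl⟩ := CStarAlgebra.nonneg_iff_eq_star_mul_self.mp hA.nonneg
  rw [Matrix.star_eq_conjTranspose]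
  have h1 : (Cᴴ * C * B).trace = (C * B * Cᴴ).trace := by
    rw [Matrix.mul_assoc, Matrix.trace_mul_comm]
  rw [h1]
  have h2 := (hB.mul_mul_conjTranspose_same C).trace_nonneg
  exact (Complex.le_def.1 h2).1

theorem posSemidef_mul_sub {A : Matrix n n ℂ} {s : ℝ} (hs : 0 < s) (hA : A.PosSemidef)
    (hA' : (((s : ℝ) : ℂ) • (1 : Matrix n n ℂ) - A).PosSemidef) :
    (A * (((s : ℝ) : ℂ) • (1 : Matrix n n ℂ) - A)).PosSemidef := by
  set B := ((s : ℝ) : ℂ) • (1 : Matrix n n ℂ) - A with hB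
  have hAh : Aᴴ = A := hA.isHermitian
  have hBh : Bᴴ = B := hA'.isHermitian
  have h1 : (A * B * A).PosSemidef := by
    have := hA'.mul_mul_conjTranspose_same A
    rwa [hAh] at this
  have h2 : (B * A * B).PosSemidef := by
    have := hA.mul_mul_conjTranspose_same B
    rwa [hBh] at this
  have h3 : A * B * A + B * A * B = ((s : ℝ) : ℂ) • (A * B) := by
    have hcomm : B * A = A * B := by
      rw [hB]
      simp [Matrix.sub_mul, Matrix.mul_sub]
    have : A * B * A + B * A * B = (A * B) * (A + B) := by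
      rw [Matrix.mul_add, hcomm]
    rw [this]
    have h4 : A + B = ((s : ℝ) : ℂ) • (1 : Matrix n n ℂ) := by
      rw [hB]; abel
    rw [h4]
    simp
  have h5 : A * B = (((s⁻¹ : ℝ)) : ℂ) • (A * B * A + B * A * B) := by
    rw [h3, smul_smul]
    have : (((s⁻¹ : ℝ) : ℂ) * ((s : ℝ) : ℂ)) = 1 := by
      rw [← Complex.ofReal_mul, inv_mul_cancel₀ hs.ne']
      simp
    rw [this, one_smul]
  rw [h5]
  refine (h1.add h2).smul ?_
  exact_mod_cast (inv_pos.2 hs).le

omit [DecidableEq n] in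
/-- Cauchy–Schwarz for the Frobenius inner product. -/
theorem norm_trace_conjTranspose_mul_le (A B : Matrix n n ℂ) :
    ‖(Aᴴ * B).trace‖ ≤ √((Aᴴ * A).trace.re) * √((Bᴴ * B).trace.re) := by
  have key : ∀ C D : Matrix n n ℂ,
      (Cᴴ * D).trace = ∑ p : n × n, star (C p.2 p.1) * D p.2 p.1 := by
    intro C D
    simp only [Matrix.trace, Matrix.diag, Matrix.mul_apply, Matrix.conjTranspose_apply]
    rw [Fintype.sum_prod_type]
  have key2 : ∀ C : Matrix n n ℂ, ((Cᴴ * C).trace).re = ∑ p : n × n, ‖C p.2 p.1‖ ^ 2 := by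
    intro C
    rw [key, Complex.re_sum]
    refine Finset.sum_congr rfl fun p _ => ?_
    rw [← Complex.normSq_eq_norm_sq, Complex.star_def, ← Complex.normSq_eq_conj_mul_self]
    simp
  rw [key, key2, key2]
  refine (norm_sum_le _ _).trans ?_
  simp only [norm_mul, norm_star]
  exact Real.sum_mul_le_sqrt_mul_sqrt _ _ _

/-- The one-step inequality for pure (arbitrary) states. -/
theorem step_le' {Q ρ E : Matrix n n ℂ}
    (hQ : Qᴴ = Q) (hQ2 : Q * Q = Q)
    (hρ : ρ.PosSemidef) (hρ1 : ρ.trace = 1)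
    (hE : E.PosSemidef) (hE1 : (1 - E).PosSemidef) :
    |((E * ((1 - (2 : ℂ) • Q) * ρ * (1 - (2 : ℂ) • Q))).trace).re - ((E * ρ).trace).re| ≤
      2 * √(((Q * ρ).trace).re) := by
  set F : Matrix n n ℂ := E - ((1 / 2 : ℂ)) • 1 with hF
  have hρh : ρᴴ = ρ := hρ.isHermitian
  have hEh : Eᴴ = E := hE.isHermitian
  have hFh : Fᴴ = F := by
    rw [hF, Matrix.conjTranspose_sub, Matrix.conjTranspose_smul, hEh]
    simp
  set R : Matrix n n ℂ := 1 - Q with hR
  have hRh : Rᴴ = R := by rw [hR, Matrix.conjTranspose_sub, hQ]; simp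
  have hRQ : R * Q = 0 := by rw [hR, Matrix.sub_mul, hQ2]; simp
  have hQR : Q * R = 0 := by rw [hR, Matrix.mul_sub, hQ2]; simp
  have hR2 : R * R = R := by
    nth_rewrite 1 [hR]
    rw [Matrix.sub_mul, hQR]; simp
  have hRps : R.PosSemidef := by
    have := Matrix.posSemidef_conjTranspose_mul_self R
    rwa [hRh, hR2] at this
  have hQps : Q.PosSemidef := by
    have := Matrix.posSemidef_conjTranspose_mul_self Q
    rwa [hQ, hQ2] at this
  have hdiff : (1 - (2 : ℂ) • Q) * ρ * (1 - (2 : ℂ) • Q) =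
      ρ + (-(2 : ℂ)) • (Q * ρ * R) + (-(2 : ℂ)) • (R * ρ * Q) := by
    rw [hR]
    simp only [Matrix.sub_mul, Matrix.mul_sub, Matrix.one_mul, Matrix.mul_one,
      Matrix.smul_mul, Matrix.mul_smul, smul_sub, smul_smul, Matrix.mul_assoc]
    module
  have hEF : ∀ Z : Matrix n n ℂ, (E * (Q * Z * R)).trace = (F * (Q * Z * R)).trace := by
    intro Z
    have h0 : (Q * Z * R).trace = 0 := by
      rw [Matrix.trace_mul_comm, ← Matrix.mul_assoc, hRQ]; simp
    rw [hF, Matrix.sub_mul, Matrix.trace_sub, Matrix.smul_mul, Matrix.one_mul,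
      Matrix.trace_smul, h0]
    simp
  have hEF' : ∀ Z : Matrix n n ℂ, (E * (R * Z * Q)).trace = (F * (R * Z * Q)).trace := by
    intro Z
    have h0 : (R * Z * Q).trace = 0 := by
      rw [Matrix.trace_mul_comm, ← Matrix.mul_assoc, hQR]; simp
    rw [hF, Matrix.sub_mul E, Matrix.trace_sub, Matrix.smul_mul, Matrix.one_mul,
      Matrix.trace_smul, h0]
    simp
  have hconj : (F * (R * ρ * Q)).trace = star ((F * (Q * ρ * R)).trace) := by
    rw [← Matrix.trace_conjTranspose]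
    simp only [Matrix.conjTranspose_mul, hFh, hRh, hQ, hρh]
    rw [Matrix.trace_mul_comm]
    simp only [Matrix.mul_assoc]
  have hval : ((E * ((1 - (2 : ℂ) • Q) * ρ * (1 - (2 : ℂ) • Q))).trace).re - ((E * ρ).trace).re =
      -4 * ((F * (Q * ρ * R)).trace).re := by
    rw [hdiff, Matrix.mul_add, Matrix.mul_add, Matrix.trace_add, Matrix.trace_add,
      Matrix.mul_smul, Matrix.mul_smul, Matrix.trace_smul, Matrix.trace_smul, hEF, hEF', hconj]
    simp only [smul_eq_mul, Complex.add_re, Complex.mul_re, Complex.neg_re, Complex.neg_im,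
      Complex.star_def, Complex.conj_re, Complex.conj_im]
    norm_num
    ring
  rw [hval]
  obtain ⟨C, hC⟩ := CStarAlgebra.nonneg_iff_eq_star_mul_self.mp hρ.nonneg
  rw [Matrix.star_eq_conjTranspose] at hC
  have hcs : ‖(F * (Q * ρ * R)).trace‖ ≤
      √(((F * R * Cᴴ)ᴴ * (F * R * Cᴴ)).trace.re) * √(((Q * Cᴴ)ᴴ * (Q * Cᴴ)).trace.re) := by
    have h1 : (F * (Q * ρ * R)).trace = ((F * R * Cᴴ)ᴴ * (Q * Cᴴ)).trace := by
      simp only [Matrix.conjTranspose_mul, hFh, hRh, Matrix.conjTranspose_conjTranspose]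
      rw [hC]
      have e1 : F * (Q * (Cᴴ * C) * R) = (F * (Q * Cᴴ)) * (C * R) := by
        simp only [Matrix.mul_assoc]
      have e2 : C * (R * F) * (Q * Cᴴ) = (C * R) * (F * (Q * Cᴴ)) := by
        simp only [Matrix.mul_assoc]
      rw [e1, e2, Matrix.trace_mul_comm]
    rw [h1]
    exact norm_trace_conjTranspose_mul_le _ _
  -- first factor
  have hfirst : ((F * R * Cᴴ)ᴴ * (F * R * Cᴴ)).trace.re ≤ 1 / 4 := by
    have e1 : ((F * R * Cᴴ)ᴴ * (F * R * Cᴴ)).trace = ((F * F) * (R * ρ * R)).trace := by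
      simp only [Matrix.conjTranspose_mul, hFh, hRh, Matrix.conjTranspose_conjTranspose]
      rw [hC]
      have e1 : C * (R * F) * (F * R * Cᴴ) = (C * R) * (F * F * (R * Cᴴ)) := by
        simp only [Matrix.mul_assoc]
      have e2 : (F * F) * (R * (Cᴴ * C) * R) = (F * F * (R * Cᴴ)) * (C * R) := by
        simp only [Matrix.mul_assoc]
      rw [e1, e2, Matrix.trace_mul_comm]
    have e4 : F * F = ((1 / 4 : ℂ)) • (1 : Matrix n n ℂ) - E * (((1 : ℝ) : ℂ) • 1 - E) := by
      rw [hF]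
      simp only [Matrix.sub_mul, Matrix.mul_sub, Matrix.one_mul, Matrix.mul_one,
        Matrix.smul_mul, Matrix.mul_smul, smul_sub, smul_smul, Complex.ofReal_one, one_smul]
      module
    have p3 : (E * (((1 : ℝ) : ℂ) • 1 - E)).PosSemidef := by
      apply posSemidef_mul_sub one_pos hE
      simpa using hE1
    have p5 : (R * ρ * R).PosSemidef := by
      have := hρ.mul_mul_conjTranspose_same R
      rwa [hRh] at this
    have p4 := trace_mul_re_nonneg p3 p5
    have e6 : (R * ρ * R).trace = ρ.trace - (Q * ρ).trace := by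
      rw [Matrix.trace_mul_comm, ← Matrix.mul_assoc, hR2, hR, Matrix.sub_mul, Matrix.one_mul,
        Matrix.trace_sub]
    have p6 := trace_mul_re_nonneg hQps hρ
    rw [e1, e4, Matrix.sub_mul, Matrix.smul_mul, Matrix.one_mul, Matrix.trace_sub,
      Matrix.trace_smul, e6, hρ1, Complex.sub_re]
    have e5 : (((1 / 4 : ℂ)) • ((1 : ℂ) - (Q * ρ).trace)).re =
        1 / 4 * (1 - ((Q * ρ).trace).re) := by
      rw [smul_eq_mul, show ((1 / 4 : ℂ)) = (((1 / 4 : ℝ)) : ℂ) by norm_num,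
        Complex.re_ofReal_mul, Complex.sub_re, Complex.one_re]
    rw [e5]
    linarith
  have hsecond : ((Q * Cᴴ)ᴴ * (Q * Cᴴ)).trace.re = ((Q * ρ).trace).re := by
    simp only [Matrix.conjTranspose_mul, hQ, Matrix.conjTranspose_conjTranspose]
    have e1 : C * Q * (Q * Cᴴ) = C * (Q * Cᴴ) := by
      rw [Matrix.mul_assoc, ← Matrix.mul_assoc Q Q, hQ2]
    rw [e1, Matrix.trace_mul_comm, Matrix.mul_assoc, hC]
  have hre : |((F * (Q * ρ * R)).trace).re| ≤ ‖(F * (Q * ρ * R)).trace‖ :=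
    Complex.abs_re_le_norm _
  rw [hsecond] at hcs
  have hhalf : √(((F * R * Cᴴ)ᴴ * (F * R * Cᴴ)).trace.re) ≤ 1 / 2 := by
    rw [show (1 / 2 : ℝ) = √(1 / 4) by
      rw [show (1 / 4 : ℝ) = (1 / 2) ^ 2 by norm_num, Real.sqrt_sq (by norm_num)]]
    exact Real.sqrt_le_sqrt hfirst
  have hfin : ‖(F * (Q * ρ * R)).trace‖ ≤ 1 / 2 * √(((Q * ρ).trace).re) :=
    hcs.trans (mul_le_mul_of_nonneg_right hhalf (Real.sqrt_nonneg _))
  rw [abs_mul]
  norm_num
  linarith [hre.trans hfin]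

/-- The one-step inequality. -/
theorem step_le {Q ρ E : Matrix n n ℂ} {s : ℝ} (hs : 0 < s)
    (hQ : Qᴴ = Q) (hQ2 : Q * Q = Q)
    (hρ : ρ.PosSemidef) (hρs : (((s : ℝ) : ℂ) • (1 : Matrix n n ℂ) - ρ).PosSemidef)
    (hE : E.PosSemidef) (hE1 : (1 - E).PosSemidef) :
    |((E * ((1 - (2 : ℂ) • Q) * ρ * (1 - (2 : ℂ) • Q))).trace).re - ((E * ρ).trace).re| ≤
      2 * √(s * (Q.trace.re * ((Q * ρ).trace).re)) := by
  set F : Matrix n n ℂ := E - ((1 / 2 : ℂ)) • 1 with hF
  have hρh : ρᴴ = ρ := hρ.isHermitian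
  have hEh : Eᴴ = E := hE.isHermitian
  have hFh : Fᴴ = F := by
    rw [hF, Matrix.conjTranspose_sub, Matrix.conjTranspose_smul, hEh]
    simp
  set R : Matrix n n ℂ := 1 - Q with hR
  have hRh : Rᴴ = R := by rw [hR, Matrix.conjTranspose_sub, hQ]; simp
  have hRQ : R * Q = 0 := by rw [hR, Matrix.sub_mul, hQ2]; simp
  have hQR : Q * R = 0 := by rw [hR, Matrix.mul_sub, hQ2]; simp
  have hR2 : R * R = R := by
    nth_rewrite 1 [hR]
    rw [Matrix.sub_mul, hQR]; simp
  have hRps : R.PosSemidef := by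
    have := Matrix.posSemidef_conjTranspose_mul_self R
    rwa [hRh, hR2] at this
  have hQps : Q.PosSemidef := by
    have := Matrix.posSemidef_conjTranspose_mul_self Q
    rwa [hQ, hQ2] at this
  -- the difference
  have hdiff : (1 - (2 : ℂ) • Q) * ρ * (1 - (2 : ℂ) • Q) =
      ρ + (-(2 : ℂ)) • (Q * ρ * R) + (-(2 : ℂ)) • (R * ρ * Q) := by
    rw [hR]
    simp only [Matrix.sub_mul, Matrix.mul_sub, Matrix.one_mul, Matrix.mul_one,
      Matrix.smul_mul, Matrix.mul_smul, smul_sub, smul_smul, Matrix.mul_assoc]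
    module
  have hEF : ∀ Z : Matrix n n ℂ, (E * (Q * Z * R)).trace = (F * (Q * Z * R)).trace := by
    intro Z
    have h0 : (Q * Z * R).trace = 0 := by
      rw [Matrix.trace_mul_comm, ← Matrix.mul_assoc, hRQ]; simp
    rw [hF, Matrix.sub_mul, Matrix.trace_sub, Matrix.smul_mul, Matrix.one_mul,
      Matrix.trace_smul, h0]
    simp
  have hEF' : ∀ Z : Matrix n n ℂ, (E * (R * Z * Q)).trace = (F * (R * Z * Q)).trace := by
    intro Z
    have h0 : (R * Z * Q).trace = 0 := by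
      rw [Matrix.trace_mul_comm, ← Matrix.mul_assoc, hQR]; simp
    rw [hF, Matrix.sub_mul E, Matrix.trace_sub, Matrix.smul_mul, Matrix.one_mul,
      Matrix.trace_smul, h0]
    simp
  -- the two off-diagonal traces are conjugate
  have hconj : (F * (R * ρ * Q)).trace = star ((F * (Q * ρ * R)).trace) := by
    rw [← Matrix.trace_conjTranspose]
    simp only [Matrix.conjTranspose_mul, hFh, hRh, hQ, hρh]
    rw [Matrix.trace_mul_comm]
    simp only [Matrix.mul_assoc]
  have hval : ((E * ((1 - (2 : ℂ) • Q) * ρ * (1 - (2 : ℂ) • Q))).trace).re - ((E * ρ).trace).re =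
      -4 * ((F * (Q * ρ * R)).trace).re := by
    rw [hdiff, Matrix.mul_add, Matrix.mul_add, Matrix.trace_add, Matrix.trace_add,
      Matrix.mul_smul, Matrix.mul_smul, Matrix.trace_smul, Matrix.trace_smul, hEF, hEF', hconj]
    simp only [smul_eq_mul, Complex.add_re, Complex.mul_re, Complex.neg_re, Complex.neg_im,
      Complex.star_def, Complex.conj_re, Complex.conj_im]
    norm_num
    ring
  rw [hval]
  -- Cauchy-Schwarz
  have hcs : ‖(F * (Q * ρ * R)).trace‖ ≤
      √(((Q * F * R)ᴴ * (Q * F * R))ᵀ.trace.re) * √(((Q * ρ)ᴴ * (Q * ρ)).trace.re) := by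
    have h1 : (F * (Q * ρ * R)).trace = ((Q * F * R)ᴴ * (Q * ρ)).trace := by
      simp only [Matrix.conjTranspose_mul, hFh, hRh, hQ]
      rw [← Matrix.mul_assoc, Matrix.trace_mul_comm]
      have : R * (F * Q) * (Q * ρ) = R * (F * (Q * ρ)) := by
        rw [Matrix.mul_assoc, Matrix.mul_assoc F Q, ← Matrix.mul_assoc Q Q, hQ2]
      rw [this]
    rw [h1, Matrix.trace_transpose]
    exact norm_trace_conjTranspose_mul_le _ _
  rw [Matrix.trace_transpose] at hcs
  -- first factor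
  have hQF : ((Q * F * R)ᴴ * (Q * F * R)).trace.re ≤ 1 / 4 * Q.trace.re := by
    -- tr (R F Q F R) = tr (Q F R F Q) ≤ tr (Q F F Q) ≤ tr Q / 4
    have e1 : ((Q * F * R)ᴴ * (Q * F * R)).trace = ((F * Q * F) * R).trace := by
      simp only [Matrix.conjTranspose_mul, hFh, hRh, hQ]
      rw [Matrix.mul_assoc, Matrix.trace_mul_comm]
      congr 1
      simp only [Matrix.mul_assoc]
      rw [hR2, ← Matrix.mul_assoc Q Q, hQ2]
    have e2 : ((F * Q * F) * R).trace = ((F * Q * F)).trace - ((F * Q * F) * Q).trace := by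
      rw [hR, Matrix.mul_sub, Matrix.mul_one, Matrix.trace_sub]
    have p1 : (F * Q * F).PosSemidef := by
      have := hQps.mul_mul_conjTranspose_same F
      rwa [hFh] at this
    have p2 := trace_mul_re_nonneg p1 hQps
    have e3 : ((F * Q * F)).trace = (Q * (F * F)).trace := by
      rw [Matrix.mul_assoc, Matrix.trace_mul_comm, Matrix.mul_assoc]
    have e4 : F * F = ((1 / 4 : ℂ)) • (1 : Matrix n n ℂ) - E * (((1 : ℝ) : ℂ) • 1 - E) := by
      rw [hF]
      simp only [Matrix.sub_mul, Matrix.mul_sub, Matrix.one_mul, Matrix.mul_one,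
        Matrix.smul_mul, Matrix.mul_smul, smul_sub, smul_smul, Complex.ofReal_one, one_smul]
      module
    have p3 : (E * (((1 : ℝ) : ℂ) • 1 - E)).PosSemidef := by
      apply posSemidef_mul_sub one_pos hE
      simpa using hE1
    have p4 := trace_mul_re_nonneg hQps p3
    rw [e1, e2, e3, e4, Matrix.mul_sub, Matrix.trace_sub, Matrix.mul_smul, Matrix.mul_one,
      Matrix.trace_smul]
    rw [Complex.sub_re, Complex.sub_re]
    have e5 : (((1 / 4 : ℂ)) • Q.trace).re = 1 / 4 * Q.trace.re := by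
      rw [smul_eq_mul, show ((1 / 4 : ℂ)) = (((1 / 4 : ℝ)) : ℂ) by norm_num, Complex.re_ofReal_mul]
    rw [e5]
    linarith
  have hQρ : ((Q * ρ)ᴴ * (Q * ρ)).trace.re ≤ s * ((Q * ρ).trace).re := by
    have e1 : ((Q * ρ)ᴴ * (Q * ρ)).trace = (Q * (ρ * ρ)).trace := by
      simp only [Matrix.conjTranspose_mul, hQ, hρh]
      have : ρ * Q * (Q * ρ) = ρ * (Q * ρ) := by
        rw [Matrix.mul_assoc, ← Matrix.mul_assoc Q Q, hQ2]
      rw [this, Matrix.trace_mul_comm, Matrix.mul_assoc]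
    have e2 : ρ * ρ = ((s : ℝ) : ℂ) • ρ - ρ * (((s : ℝ) : ℂ) • 1 - ρ) := by
      simp only [Matrix.mul_sub, Matrix.mul_smul, Matrix.mul_one]
      abel
    have p3 := trace_mul_re_nonneg hQps (posSemidef_mul_sub hs hρ hρs)
    rw [e1, e2, Matrix.mul_sub, Matrix.trace_sub, Matrix.mul_smul, Matrix.trace_smul,
      Complex.sub_re, smul_eq_mul, Complex.re_ofReal_mul]
    linarith
  have hre : |((F * (Q * ρ * R)).trace).re| ≤ ‖(F * (Q * ρ * R)).trace‖ :=
    Complex.abs_re_le_norm _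
  have hfin : √(((Q * F * R)ᴴ * (Q * F * R)).trace.re) * √(((Q * ρ)ᴴ * (Q * ρ)).trace.re) ≤
      1 / 2 * √(s * (Q.trace.re * ((Q * ρ).trace).re)) := by
    have hq0 : 0 ≤ Q.trace.re := (Complex.le_def.1 hQps.trace_nonneg).1
    have hqρ0 : 0 ≤ ((Q * ρ).trace).re := trace_mul_re_nonneg hQps hρ
    calc √(((Q * F * R)ᴴ * (Q * F * R)).trace.re) * √(((Q * ρ)ᴴ * (Q * ρ)).trace.re)
        ≤ √(1 / 4 * Q.trace.re) * √(s * ((Q * ρ).trace).re) := by
          gcongr
      _ = √((1 / 4 * Q.trace.re) * (s * ((Q * ρ).trace).re)) := by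
          rw [← Real.sqrt_mul (by positivity : (0 : ℝ) ≤ 1 / 4 * Q.trace.re)]
      _ = √((1 / 2) ^ 2 * (s * (Q.trace.re * ((Q * ρ).trace).re))) := by
          congr 1; ring
      _ = 1 / 2 * √(s * (Q.trace.re * ((Q * ρ).trace).re)) := by
          rw [Real.sqrt_mul (by positivity), Real.sqrt_sq (by norm_num)]
  rw [abs_mul]
  norm_num
  linarith [hre.trans (hcs.trans hfin)]

end Pool.Agent.H18.Clean
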