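import Pool.Agent.H18.Clean.Defs
import Pool.Agent.H18.Clean.Lin

/-!
# The block-sensitivity lower bound
-/

set_option linter.unusedSectionVars false

namespace Pool.Agent.H18.Clean

open Matrix
open scoped ComplexOrder MatrixOrder

variable {X : Type} [Fintype X] [DecidableEq X] {κ : ℝ}

theorem oracle_mul (w : ℕ) (f g : X → Bool) :
    oracle w f * oracle w g = oracle w (fun x => xor (f x) (g x)) := by
  ext i j
  simp only [oracle, Matrix.mul_apply, Matrix.of_apply]
  rw [Finset.sum_eq_single (j.1, xor j.2.1 (g j.1), j.2.2)]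
  · simp only [if_true, mul_one]
    congr 1
    rw [eq_iff_iff]
    cases f j.1 <;> cases g j.1 <;> simp
  · intro k _ hk
    rw [if_neg hk, mul_zero]
  · simp

theorem oracle_conjTranspose (w : ℕ) (f : X → Bool) : (oracle w f)ᴴ = oracle w f := by
  ext i j
  simp only [oracle, Matrix.conjTranspose_apply, Matrix.of_apply]
  rw [apply_ite star, star_one, star_zero]
  congr 1
  rw [eq_iff_iff]
  constructor
  · rintro rfl
    ext <;> simp
  · rintro rfl
    ext <;> simp

theorem oracle_false (w : ℕ) : oracle w (fun _ : X => false) = 1 := by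
  ext i j
  simp [oracle, Matrix.one_apply]

theorem oracle_mul_self (w : ℕ) (f : X → Bool) : oracle w f * oracle w f = 1 := by
  rw [oracle_mul]
  simp [oracle_false]

theorem oracle_mem_unitary (w : ℕ) (f : X → Bool) :
    oracle w f ∈ Matrix.unitaryGroup (Bas X w) ℂ := by
  rw [Matrix.mem_unitaryGroup_iff, Matrix.star_eq_conjTranspose, oracle_conjTranspose,
    oracle_mul_self]

/-- The projector onto the part of the space that notices a flip on `B`. -/
noncomputable def proj (w : ℕ) (B : Finset X) : Op X w :=
  (1 / 2 : ℂ) • (1 - oracle w (fun x => decide (x ∈ B)))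

theorem one_sub_proj (w : ℕ) (B : Finset X) :
    1 - (2 : ℂ) • proj w B = oracle w (fun x => decide (x ∈ B)) := by
  rw [proj, smul_smul]
  norm_num

theorem proj_conjTranspose (w : ℕ) (B : Finset X) : (proj w B)ᴴ = proj w B := by
  rw [proj, Matrix.conjTranspose_smul, Matrix.conjTranspose_sub, oracle_conjTranspose]
  simp

theorem proj_mul_self (w : ℕ) (B : Finset X) : proj w B * proj w B = proj w B := by
  rw [proj]
  simp only [Matrix.smul_mul, Matrix.mul_smul, Matrix.sub_mul, Matrix.mul_sub, Matrix.one_mul,
    Matrix.mul_one, oracle_mul_self]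
  module

theorem proj_posSemidef (w : ℕ) (B : Finset X) : (proj w B).PosSemidef := by
  have := Matrix.posSemidef_conjTranspose_mul_self (proj w B)
  rwa [proj_conjTranspose, proj_mul_self] at this

theorem one_sub_proj_posSemidef (w : ℕ) (B : Finset X) : (1 - proj w B).PosSemidef := by
  have := Matrix.posSemidef_conjTranspose_mul_self (1 - proj w B)
  rw [Matrix.conjTranspose_sub, proj_conjTranspose, Matrix.conjTranspose_one] at this
  have h : (1 - proj w B) * (1 - proj w B) = 1 - proj w B := by
    simp only [Matrix.sub_mul, Matrix.mul_sub, proj_mul_self, Matrix.one_mul, Matrix.mul_one]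
    simp
  rwa [h] at this

theorem proj_apply (w : ℕ) (B : Finset X) (i j : Bas X w) :
    proj w B i j = if j.1 ∈ B then
      (1 / 2 : ℂ) * ((if i = j then 1 else 0) - (if i = (j.1, !j.2.1, j.2.2) then 1 else 0))
      else 0 := by
  simp only [proj, oracle, Matrix.smul_apply, Matrix.sub_apply, Matrix.one_apply,
    Matrix.of_apply, smul_eq_mul]
  by_cases h : j.1 ∈ B
  · simp [h]
  · simp [h]

theorem proj_trace (w : ℕ) (B : Finset X) : (proj w B).trace = (B.card : ℂ) * w := by
  simp only [Matrix.trace, Matrix.diag, proj_apply]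
  rw [Fintype.sum_prod_type]
  have : ∀ x : X, (∑ y : Bool × Fin w, (if x ∈ B then
      (1 / 2 : ℂ) * ((if True then 1 else 0) -
        (if ((x, y) : Bas X w) = (x, !y.1, y.2) then 1 else 0)) else 0)) =
      if x ∈ B then (w : ℂ) else 0 := by
    intro x
    by_cases h : x ∈ B
    · simp [h, Prod.ext_iff]
      ring
    · simp [h]
  simp only [this]
  rw [Finset.sum_ite_mem]
  simp

theorem sum_proj {ι : Type} [Fintype ι] (w : ℕ) (B : ι → Finset X)
    (hB : Pairwise fun i j => Disjoint (B i) (B j)) :
    ∑ i, proj w (B i) = proj w (Finset.univ.biUnion B) := by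
  classical
  ext i j
  rw [Matrix.sum_apply]
  simp only [proj_apply]
  by_cases h : j.1 ∈ Finset.univ.biUnion B
  · rw [if_pos h]
    obtain ⟨k, -, hk⟩ := Finset.mem_biUnion.1 h
    rw [Finset.sum_eq_single k]
    · rw [if_pos hk]
    · intro l _ hl
      rw [if_neg]
      intro hjl
      exact Finset.disjoint_left.1 (hB hl) hjl hk
    · simp
  · rw [if_neg h]
    apply Finset.sum_eq_zero
    intro k _
    rw [if_neg]
    intro hk
    exact h (Finset.mem_biUnion.2 ⟨k, Finset.mem_univ _, hk⟩)

theorem Run.chan_pos (R : Run X κ) (t : ℕ) {σ : Op X R.w} (h : σ.PosSemidef) :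
    (R.chan t σ).PosSemidef :=
  Matrix.posSemidef_sum _ fun i _ => h.mul_mul_conjTranspose_same _

theorem Run.chan_trace (R : Run X κ) (t : ℕ) (σ : Op X R.w) :
    (R.chan t σ).trace = σ.trace := by
  rw [Run.chan, Matrix.trace_sum]
  have : ∀ i, (R.A t i * σ * (R.A t i)ᴴ).trace = (((R.A t i)ᴴ * R.A t i) * σ).trace := by
    intro i
    rw [Matrix.trace_mul_comm, Matrix.mul_assoc]
  simp only [this]
  rw [← Matrix.trace_sum, ← Matrix.sum_mul, R.A_tp, Matrix.one_mul]

theorem Run.chan_sub (R : Run X κ) (t : ℕ) (σ τ : Op X R.w) :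
    R.chan t (σ - τ) = R.chan t σ - R.chan t τ := by
  simp only [Run.chan, Matrix.mul_sub, Matrix.sub_mul, Finset.sum_sub_distrib]

theorem Run.chan_smul_one (R : Run X κ) (t : ℕ) (c : ℂ) :
    R.chan t (c • 1) = c • 1 := by
  simp only [Run.chan, Matrix.mul_smul, Matrix.smul_mul, Matrix.mul_one]
  rw [← Finset.smul_sum, R.A_unital]

/-- the dual channel -/
def Run.dual (R : Run X κ) (t : ℕ) (E : Op X R.w) : Op X R.w :=
  ∑ i, (R.A t i)ᴴ * E * R.A t i

theorem Run.dual_effect (R : Run X κ) (t : ℕ) {E : Op X R.w} (hE : E.PosSemidef)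
    (hE1 : (1 - E).PosSemidef) : (R.dual t E).PosSemidef ∧ (1 - R.dual t E).PosSemidef := by
  refine ⟨Matrix.posSemidef_sum _ fun i _ => hE.conjTranspose_mul_mul_same _, ?_⟩
  have : 1 - R.dual t E = ∑ i, (R.A t i)ᴴ * (1 - E) * R.A t i := by
    simp only [Run.dual, Matrix.mul_sub, Matrix.sub_mul, Finset.sum_sub_distrib, Matrix.mul_one]
    rw [R.A_tp]
  rw [this]
  exact Matrix.posSemidef_sum _ fun i _ => hE1.conjTranspose_mul_mul_same _

theorem Run.dual_trace (R : Run X κ) (t : ℕ) (E σ : Op X R.w) :
    (E * R.chan t σ).trace = (R.dual t E * σ).trace := by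
  rw [Run.chan, Run.dual, Matrix.mul_sum, Matrix.sum_mul, Matrix.trace_sum, Matrix.trace_sum]
  refine Finset.sum_congr rfl fun i _ => ?_
  have e1 : E * (R.A t i * σ * (R.A t i)ᴴ) = (E * R.A t i * σ) * (R.A t i)ᴴ := by
    simp only [Matrix.mul_assoc]
  rw [e1, Matrix.trace_mul_comm]
  simp only [Matrix.mul_assoc]

theorem Run.state_pos (R : Run X κ) (f : X → Bool) (t : ℕ) : (R.state f t).PosSemidef := by
  cases t with
  | zero => exact R.chan_pos 0 R.ρ_pos
  | succ t => exact R.chan_pos (t + 1) ((R.state_pos f t).mul_mul_conjTranspose_same _)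

theorem Run.state_trace (R : Run X κ) (f : X → Bool) (t : ℕ) : (R.state f t).trace = 1 := by
  cases t with
  | zero => rw [Run.state, R.chan_trace, R.ρ_trace]
  | succ t =>
    rw [Run.state, R.chan_trace, Matrix.trace_mul_comm, ← Matrix.mul_assoc,
      oracle_conjTranspose, oracle_mul_self, Matrix.one_mul, R.state_trace f t]

theorem Run.state_pure (R : Run X κ) (f : X → Bool) (t : ℕ) :
    (((κ / (Fintype.card (Bas X R.w) : ℝ) : ℝ) : ℂ) • (1 : Op X R.w) - R.state f t).PosSemidef := by
  cases t with
  | zero =>
    have h := R.chan_pos 0 R.ρ_pure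
    rwa [R.chan_sub, R.chan_smul_one] at h
  | succ t =>
    have h := (R.state_pure f t).mul_mul_conjTranspose_same (oracle R.w f)
    rw [Matrix.mul_sub, Matrix.sub_mul, Matrix.mul_smul, Matrix.smul_mul, Matrix.mul_one,
      oracle_conjTranspose, oracle_mul_self] at h
    have h2 := R.chan_pos (t + 1) h
    rw [R.chan_sub, R.chan_smul_one] at h2
    rw [Run.state, oracle_conjTranspose]
    exact h2

/-- `κ / D > 0`. -/
theorem Run.pos (R : Run X κ) : 0 < κ / (Fintype.card (Bas X R.w) : ℝ) := by
  have h := (Complex.le_def.1 R.ρ_pure.trace_nonneg).1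
  rw [Matrix.trace_sub, Matrix.trace_smul, R.ρ_trace, Matrix.trace_one, smul_eq_mul,
    Complex.sub_re, Complex.re_ofReal_mul] at h
  simp only [Complex.zero_re, Complex.natCast_re, Complex.one_re] at h
  by_contra hneg
  push Not at hneg
  have : κ / (Fintype.card (Bas X R.w) : ℝ) * (Fintype.card (Bas X R.w) : ℝ) ≤ 0 :=
    mul_nonpos_of_nonpos_of_nonneg hneg (Nat.cast_nonneg _)
  linarith

theorem effect_conj {n : Type} [Fintype n] [DecidableEq n] {E U : Matrix n n ℂ}
    (hU : Uᴴ * U = 1) (hE : E.PosSemidef) (hE1 : (1 - E).PosSemidef) :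
    (Uᴴ * E * U).PosSemidef ∧ (1 - Uᴴ * E * U).PosSemidef := by
  refine ⟨hE.conjTranspose_mul_mul_same U, ?_⟩
  have h := hE1.conjTranspose_mul_mul_same U
  rw [Matrix.mul_sub, Matrix.sub_mul, Matrix.mul_one, hU] at h
  exact h

/-- The contribution of the query number `i + 1` and the block `B`. -/
noncomputable def Run.term (R : Run X κ) (f : X → Bool) (B : Finset X) (i : ℕ) : ℝ :=
  min (2 * √(κ / (Fintype.card (Bas X R.w) : ℝ) *
        ((proj R.w B).trace.re * ((proj R.w B * R.state f i).trace).re)))
    (2 * √(((proj R.w B * R.state f i).trace).re))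

/-- The hybrid argument for one block. -/
theorem Run.hybrid (R : Run X κ) (f : X → Bool) (B : Finset X) (t : ℕ) :
    ∀ E : Op X R.w, E.PosSemidef → (1 - E).PosSemidef →
    |((E * R.state (flipOn f B) t).trace).re - ((E * R.state f t).trace).re| ≤
      ∑ i ∈ Finset.range t, R.term f B i := by
  induction t with
  | zero =>
    intro E _ _
    simp [Run.state]
  | succ t ih =>
    intro E hE hE1
    set Of := oracle R.w f with hOf
    set Og := oracle R.w (flipOn f B) with hOg
    set OB := oracle R.w (fun x => decide (x ∈ B)) with hOB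
    have hOgf : Og = Of * OB := by
      rw [hOg, hOf, hOB, oracle_mul]; rfl
    obtain ⟨hE', hE1'⟩ := R.dual_effect (t + 1) hE hE1
    set E' := R.dual (t + 1) E with hE'def
    have hOgu : Ogᴴ * Og = 1 := by
      rw [hOg, oracle_conjTranspose, oracle_mul_self]
    have hOfu : Ofᴴ * Of = 1 := by
      rw [hOf, oracle_conjTranspose, oracle_mul_self]
    obtain ⟨hEg, hEg1⟩ := effect_conj hOgu hE' hE1'
    obtain ⟨hEf, hEf1⟩ := effect_conj hOfu hE' hE1'
    have hmove : ∀ (h : X → Bool) (σ : Op X R.w),
        (E * R.chan (t + 1) (oracle R.w h * σ * (oracle R.w h)ᴴ)).trace =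
          ((((oracle R.w h)ᴴ * E' * oracle R.w h)) * σ).trace := by
      intro h σ
      rw [R.dual_trace, ← hE'def]
      have e1 : E' * (oracle R.w h * σ * (oracle R.w h)ᴴ) =
          (E' * oracle R.w h * σ) * (oracle R.w h)ᴴ := by
        simp only [Matrix.mul_assoc]
      rw [e1, Matrix.trace_mul_comm]
      simp only [Matrix.mul_assoc]
    rw [Run.state, Run.state, hmove, hmove]
    have h1 := ih _ hEg hEg1
    have h2 := step_le R.pos (proj_conjTranspose R.w B) (proj_mul_self R.w B)
      (R.state_pos f t) (R.state_pure f t) hEf hEf1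
    have h2' := step_le' (proj_conjTranspose R.w B) (proj_mul_self R.w B)
      (R.state_pos f t) (R.state_trace f t) hEf hEf1
    rw [one_sub_proj, ← hOB] at h2 h2'
    have h2'' := le_min h2 h2'
    have h3 : (Ofᴴ * E' * Of * (OB * R.state f t * OB)).trace =
        (Ogᴴ * E' * Og * R.state f t).trace := by
      have hOBh : OBᴴ = OB := by rw [hOB, oracle_conjTranspose]
      rw [hOgf, Matrix.conjTranspose_mul, hOBh]
      have e1 : Ofᴴ * E' * Of * (OB * R.state f t * OB) =
        (Ofᴴ * E' * Of * OB * R.state f t) * OB := by simp only [Matrix.mul_assoc]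
      rw [e1, Matrix.trace_mul_comm]
      simp only [Matrix.mul_assoc]
    rw [h3] at h2''
    rw [Finset.sum_range_succ]
    have h4 := abs_add_le
      (((Ogᴴ * E' * Og * R.state (flipOn f B) t).trace).re -
        ((Ogᴴ * E' * Og * R.state f t).trace).re)
      (((Ogᴴ * E' * Og * R.state f t).trace).re - ((Ofᴴ * E' * Of * R.state f t).trace).re)
    have h5 : (((Ogᴴ * E' * Og * R.state (flipOn f B) t).trace).re -
        ((Ogᴴ * E' * Og * R.state f t).trace).re) +
        (((Ogᴴ * E' * Og * R.state f t).trace).re - ((Ofᴴ * E' * Of * R.state f t).trace).re) =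
        ((Ogᴴ * E' * Og * R.state (flipOn f B) t).trace).re -
          ((Ofᴴ * E' * Of * R.state f t).trace).re := by ring
    rw [h5] at h4
    have h6 : R.term f B t = min (2 * √(κ / (Fintype.card (Bas X R.w) : ℝ) *
        ((proj R.w B).trace.re * ((proj R.w B * R.state f t).trace).re)))
        (2 * √(((proj R.w B * R.state f t).trace).re)) := rfl
    rw [h6]
    linarith

/-- The speed-up factor for purity `κ` and `b` blocks. -/
noncomputable def fac (κ : ℝ) (b : ℕ) : ℝ := min (√(2 * κ)) (2 * √b)

theorem fac_nonneg (κ : ℝ) (b : ℕ) : 0 ≤ fac κ b :=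
  le_min (Real.sqrt_nonneg _) (by positivity)

/-- The bound for one run, summed over pairwise disjoint blocks; the effect may depend on
the block. -/
theorem Run.sum_le (R : Run X κ) (f : X → Bool) {ι : Type} [Fintype ι] (B : ι → Finset X)
    (hB : Pairwise fun i j => Disjoint (B i) (B j)) (E : ι → Op X R.w)
    (hE : ∀ j, (E j).PosSemidef) (hE1 : ∀ j, (1 - E j).PosSemidef) :
    ∑ j, |((E j * R.state (flipOn f (B j)) R.T).trace).re - ((E j * R.state f R.T).trace).re| ≤
      fac κ (Fintype.card ι) * R.T := by
  classical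
  set D : ℝ := (Fintype.card (Bas X R.w) : ℝ) with hD
  have hκD := R.pos
  rw [← hD] at hκD
  have hDpos : 0 < D := by
    rcases (Nat.cast_nonneg (Fintype.card (Bas X R.w)) : (0 : ℝ) ≤ _).lt_or_eq with h | h
    · exact h
    · exfalso
      rw [hD, ← h] at hκD
      simp at hκD
  have hκ : 0 < κ := by
    by_contra h
    push Not at h
    have := div_nonpos_of_nonpos_of_nonneg h hDpos.le
    linarith
  calc ∑ j, |((E j * R.state (flipOn f (B j)) R.T).trace).re - ((E j * R.state f R.T).trace).re|
      ≤ ∑ j, ∑ i ∈ Finset.range R.T, R.term f (B j) i :=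
        Finset.sum_le_sum fun j _ => R.hybrid f (B j) R.T (E j) (hE j) (hE1 j)
    _ = ∑ i ∈ Finset.range R.T, ∑ j, R.term f (B j) i := Finset.sum_comm
    _ ≤ ∑ i ∈ Finset.range R.T, fac κ (Fintype.card ι) := by
        refine Finset.sum_le_sum fun i _ => ?_
        have hq0 : ∀ j, 0 ≤ ((proj R.w (B j) * R.state f i).trace).re := fun j =>
          trace_mul_re_nonneg (proj_posSemidef _ _) (R.state_pos f i)
        have ht0 : ∀ j, 0 ≤ (proj R.w (B j)).trace.re := fun j =>
          (Complex.le_def.1 (proj_posSemidef _ _).trace_nonneg).1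
        have hsum1 : ∑ j, ((proj R.w (B j) * R.state f i).trace).re ≤ 1 := by
          rw [← Complex.re_sum, ← Matrix.trace_sum, ← Matrix.sum_mul, sum_proj R.w B hB]
          have h := trace_mul_re_nonneg (one_sub_proj_posSemidef R.w (Finset.univ.biUnion B))
            (R.state_pos f i)
          rw [Matrix.sub_mul, Matrix.one_mul, Matrix.trace_sub, R.state_trace, Complex.sub_re,
            Complex.one_re] at h
          linarith
        have hsum2 : ∑ j, (proj R.w (B j)).trace.re ≤ D / 2 := by
          rw [← Complex.re_sum, ← Matrix.trace_sum, sum_proj R.w B hB, proj_trace]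
          have h1 : (((Finset.univ.biUnion B).card : ℂ) * (R.w : ℂ)).re =
              ((Finset.univ.biUnion B).card : ℝ) * (R.w : ℝ) := by
            rw [← Nat.cast_mul, Complex.natCast_re, Nat.cast_mul]
          rw [h1, hD]
          have h2 : (Fintype.card (Bas X R.w) : ℝ) = (Fintype.card X : ℝ) * (2 * R.w) := by
            simp [Bas]
          rw [h2]
          have h3 : ((Finset.univ.biUnion B).card : ℝ) ≤ Fintype.card X := by
            exact_mod_cast Finset.card_le_univ _
          have h4 : (0 : ℝ) ≤ R.w := Nat.cast_nonneg _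
          nlinarith [mul_le_mul_of_nonneg_right h3 h4]
        have hcs : ∑ j, √((proj R.w (B j)).trace.re) * √(((proj R.w (B j) * R.state f i).trace).re)
            ≤ √(D / 2) * √1 := by
          refine (Real.sum_sqrt_mul_sqrt_le _ ht0 hq0).trans ?_
          gcongr
        have hcs' : ∑ j, √((1 : ℝ)) * √(((proj R.w (B j) * R.state f i).trace).re)
            ≤ √(Fintype.card ι) * √1 := by
          refine (Real.sum_sqrt_mul_sqrt_le _ (fun _ => zero_le_one) hq0).trans ?_
          gcongr
          simp
        refine le_min ?_ ?_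
        · have heq : ∀ j, R.term f (B j) i ≤ (2 * √(κ / D)) *
              (√((proj R.w (B j)).trace.re) * √(((proj R.w (B j) * R.state f i).trace).re)) := by
            intro j
            refine (min_le_left _ _).trans (le_of_eq ?_)
            rw [Real.sqrt_mul hκD.le, Real.sqrt_mul (ht0 j)]
            ring
          refine (Finset.sum_le_sum fun j _ => heq j).trans ?_
          rw [← Finset.mul_sum]
          calc (2 * √(κ / D)) * ∑ j, (√((proj R.w (B j)).trace.re) *
                √(((proj R.w (B j) * R.state f i).trace).re))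
              ≤ (2 * √(κ / D)) * (√(D / 2) * √1) := by gcongr
            _ = √(2 * κ) := by
              rw [Real.sqrt_one, mul_one, mul_assoc, ← Real.sqrt_mul hκD.le]
              rw [show (2 : ℝ) = √(2 ^ 2) by rw [Real.sqrt_sq]; norm_num]
              rw [← Real.sqrt_mul (by norm_num)]
              congr 1
              rw [show √((2 : ℝ) ^ 2) = 2 by rw [Real.sqrt_sq]; norm_num]
              field_simp
        · have heq : ∀ j, R.term f (B j) i ≤ 2 *
              (√(1 : ℝ) * √(((proj R.w (B j) * R.state f i).trace).re)) := by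
            intro j
            refine (min_le_right _ _).trans (le_of_eq ?_)
            rw [Real.sqrt_one, one_mul]
          refine (Finset.sum_le_sum fun j _ => heq j).trans ?_
          rw [← Finset.mul_sum]
          calc 2 * ∑ j, (√(1 : ℝ) * √(((proj R.w (B j) * R.state f i).trace).re))
              ≤ 2 * (√(Fintype.card ι) * √1) := by gcongr
            _ = 2 * √(Fintype.card ι) := by rw [Real.sqrt_one, mul_one]
    _ = fac κ (Fintype.card ι) * R.T := by
        rw [Finset.sum_const, Finset.card_range, nsmul_eq_mul, mul_comm]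

theorem Run.prob_eq (R : Run X κ) (f : X → Bool) (o : Fin R.m) :
    R.prob f o = ((R.M o * R.state f R.T).trace).re := rfl

theorem Run.prob_nonneg (R : Run X κ) (f : X → Bool) (o : Fin R.m) : 0 ≤ R.prob f o :=
  trace_mul_re_nonneg (R.M_pos o) (R.state_pos f R.T)

theorem Run.prob_sum (R : Run X κ) (f : X → Bool) : ∑ o, R.prob f o = 1 := by
  simp only [Run.prob_eq]
  rw [← Complex.re_sum, ← Matrix.trace_sum, ← Matrix.sum_mul, R.M_sum, Matrix.one_mul,
    R.state_trace, Complex.one_re]

theorem Protocol.accept_mem (P : Protocol X κ) (f : X → Bool) :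
    0 ≤ P.accept f ∧ P.accept f ≤ 1 := by
  induction P with
  | answer a => cases a <;> simp [Protocol.accept]
  | query x next ih => exact ih (f x)
  | run R next ih =>
    simp only [Protocol.accept]
    constructor
    · exact Finset.sum_nonneg fun o _ => mul_nonneg (R.prob_nonneg f o) (ih o).1
    · rw [← R.prob_sum f]
      exact Finset.sum_le_sum fun o _ => mul_le_of_le_one_right (R.prob_nonneg f o) (ih o).2

/-- The main lower bound. -/
theorem Protocol.sum_le (P : Protocol X κ) (c q : ℕ) (h : P.Uses c q) (f : X → Bool)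
    {ι : Type} [Fintype ι] (B : ι → Finset X) (hB : Pairwise fun i j => Disjoint (B i) (B j)) :
    ∑ j, |P.accept (flipOn f (B j)) - P.accept f| ≤ c + fac κ (Fintype.card ι) * q := by
  classical
  induction P generalizing c q with
  | answer a =>
    simp only [Protocol.accept, sub_self, abs_zero, Finset.sum_const_zero]
    have := fac_nonneg κ (Fintype.card ι)
    positivity
  | query x next ih =>
    obtain ⟨c', hc', hn⟩ := h
    have hc'' : (c' : ℝ) + 1 ≤ c := by exact_mod_cast hc'
    -- at most one block contains `x`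
    have hterm : ∀ j, |(Protocol.query x next).accept (flipOn f (B j)) -
        (Protocol.query x next).accept f| ≤
        |(next (f x)).accept (flipOn f (B j)) - (next (f x)).accept f| +
          (if x ∈ B j then 1 else 0) := by
      intro j
      simp only [Protocol.accept]
      by_cases hx : x ∈ B j
      · rw [if_pos hx]
        have h1 := (next (flipOn f (B j) x)).accept_mem (flipOn f (B j))
        have h2 := (next (f x)).accept_mem f
        have h3 : |(next (flipOn f (B j) x)).accept (flipOn f (B j)) - (next (f x)).accept f| ≤ 1 := by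
          rw [abs_le]; constructor <;> linarith [h1.1, h1.2, h2.1, h2.2]
        have h4 := abs_nonneg ((next (f x)).accept (flipOn f (B j)) - (next (f x)).accept f)
        linarith
      · rw [if_neg hx, add_zero]
        have : flipOn f (B j) x = f x := by simp [flipOn, hx]
        rw [this]
    have hone : ∑ j, (if x ∈ B j then (1 : ℝ) else 0) ≤ 1 := by
      by_cases hex : ∃ k, x ∈ B k
      · obtain ⟨k, hk⟩ := hex
        rw [Finset.sum_eq_single k]
        · simp [hk]
        · intro l _ hl
          rw [if_neg]
          intro hxl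
          exact Finset.disjoint_left.1 (hB hl) hxl hk
        · simp
      · push Not at hex
        simp [hex]
    have hih := ih (f x) c' q (hn (f x))
    calc _ ≤ ∑ j, (|(next (f x)).accept (flipOn f (B j)) - (next (f x)).accept f| +
          (if x ∈ B j then 1 else 0)) := Finset.sum_le_sum fun j _ => hterm j
      _ ≤ (c' + fac κ (Fintype.card ι) * q) + 1 := by
          rw [Finset.sum_add_distrib]
          linarith
      _ ≤ c + fac κ (Fintype.card ι) * q := by linarith
  | run R next ih =>
    obtain ⟨q', hq', hn⟩ := h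
    have hq'' : (q' : ℝ) + R.T ≤ q := by exact_mod_cast hq'
    -- the effects
    set E : ι → Op X R.w := fun j => ∑ o, (((next o).accept (flipOn f (B j)) : ℝ) : ℂ) • R.M o
      with hEdef
    have hE : ∀ j, (E j).PosSemidef := fun j =>
      Matrix.posSemidef_sum _ fun o _ => (R.M_pos o).smul (by
        exact_mod_cast ((next o).accept_mem (flipOn f (B j))).1)
    have hE1 : ∀ j, (1 - E j).PosSemidef := by
      intro j
      have : 1 - E j = ∑ o, (((1 - (next o).accept (flipOn f (B j)) : ℝ)) : ℂ) • R.M o := by
        rw [hEdef, ← R.M_sum, ← Finset.sum_sub_distrib]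
        refine Finset.sum_congr rfl fun o _ => ?_
        rw [Complex.ofReal_sub, Complex.ofReal_one, sub_smul, one_smul]
      rw [this]
      exact Matrix.posSemidef_sum _ fun o _ => (R.M_pos o).smul (by
        have := ((next o).accept_mem (flipOn f (B j))).2
        exact_mod_cast sub_nonneg.2 this)
    have hEval : ∀ j g, ((E j * R.state g R.T).trace).re =
        ∑ o, R.prob g o * (next o).accept (flipOn f (B j)) := by
      intro j g
      rw [hEdef]
      simp only [Matrix.sum_mul, Matrix.smul_mul, Matrix.trace_sum, Matrix.trace_smul,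
        Complex.re_sum, smul_eq_mul, Complex.re_ofReal_mul]
      refine Finset.sum_congr rfl fun o _ => ?_
      rw [mul_comm]; rfl
    have hmain := R.sum_le f B hB E hE hE1
    have hterm : ∀ j, |(Protocol.run R next).accept (flipOn f (B j)) -
        (Protocol.run R next).accept f| ≤
        |((E j * R.state (flipOn f (B j)) R.T).trace).re - ((E j * R.state f R.T).trace).re| +
        ∑ o, R.prob f o * |(next o).accept (flipOn f (B j)) - (next o).accept f| := by
      intro j
      rw [hEval, hEval]
      simp only [Protocol.accept]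
      have e : ∑ o, R.prob (flipOn f (B j)) o * (next o).accept (flipOn f (B j)) -
          ∑ o, R.prob f o * (next o).accept f =
          (∑ o, R.prob (flipOn f (B j)) o * (next o).accept (flipOn f (B j)) -
            ∑ o, R.prob f o * (next o).accept (flipOn f (B j))) +
          ∑ o, R.prob f o * ((next o).accept (flipOn f (B j)) - (next o).accept f) := by
        simp only [mul_sub, Finset.sum_sub_distrib]
        ring
      rw [e]
      refine (abs_add_le _ _).trans ?_
      gcongr
      refine (Finset.abs_sum_le_sum_abs _ _).trans ?_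
      refine Finset.sum_le_sum fun o _ => ?_
      rw [abs_mul, abs_of_nonneg (R.prob_nonneg f o)]
    have hsecond : ∑ j, ∑ o, R.prob f o * |(next o).accept (flipOn f (B j)) - (next o).accept f|
        ≤ c + fac κ (Fintype.card ι) * q' := by
      rw [Finset.sum_comm]
      calc ∑ o, ∑ j, R.prob f o * |(next o).accept (flipOn f (B j)) - (next o).accept f|
          = ∑ o, R.prob f o * ∑ j, |(next o).accept (flipOn f (B j)) - (next o).accept f| := by
            simp only [Finset.mul_sum]
        _ ≤ ∑ o, R.prob f o * (c + fac κ (Fintype.card ι) * q') := by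
            refine Finset.sum_le_sum fun o _ => ?_
            exact mul_le_mul_of_nonneg_left (ih o c q' (hn o)) (R.prob_nonneg f o)
        _ = c + fac κ (Fintype.card ι) * q' := by
            rw [← Finset.sum_mul, R.prob_sum, one_mul]
    calc _ ≤ ∑ j, (|((E j * R.state (flipOn f (B j)) R.T).trace).re -
            ((E j * R.state f R.T).trace).re| +
          ∑ o, R.prob f o * |(next o).accept (flipOn f (B j)) - (next o).accept f|) :=
          Finset.sum_le_sum fun j _ => hterm j
      _ ≤ fac κ (Fintype.card ι) * R.T + (c + fac κ (Fintype.card ι) * q') := by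
          rw [Finset.sum_add_distrib]
          exact add_le_add hmain hsecond
      _ = c + fac κ (Fintype.card ι) * (q' + R.T) := by ring
      _ ≤ c + fac κ (Fintype.card ι) * q := by
        have := mul_le_mul_of_nonneg_left hq'' (fac_nonneg κ (Fintype.card ι))
        linarith

end Pool.Agent.H18.Clean
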