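import Pool.Agent.H18.Clean.Search

/-!
# The complete search protocol and its analysis
-/

set_option linter.unusedSectionVars false

namespace Pool.Agent.H18.Clean

open Matrix
open scoped ComplexOrder MatrixOrder

section trig

theorem sum_cos (φ : ℝ) (m : ℕ) :
    2 * Real.sin φ * ∑ t ∈ Finset.range m, Real.cos ((2 * (t : ℝ) + 1) * φ) =
      Real.sin (2 * m * φ) := by
  induction m with
  | zero => simp
  | succ m ih =>
    rw [Finset.sum_range_succ, mul_add, ih]
    have h1 : (2 * ((m + 1 : ℕ) : ℝ) * φ) = (2 * (m : ℝ) + 1) * φ + φ := by push_cast; ring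
    have h2 : (2 * (m : ℝ) * φ) = (2 * (m : ℝ) + 1) * φ - φ := by ring
    rw [h1, h2, Real.sin_add, Real.sin_sub]
    ring

theorem bbht {θ : ℝ} {m : ℕ} (hm : 0 < m) (hc : 0 ≤ Real.cos θ) (hs : 1 ≤ m * Real.sin θ)
    (h4 : Real.sin θ ^ 2 < 1 / 4) :
    1 / 4 ≤ (m : ℝ)⁻¹ * ∑ t ∈ Finset.range m, Real.sin ((2 * (t : ℝ) + 1) * θ) ^ 2 := by
  have hm' : (0 : ℝ) < m := by exact_mod_cast hm
  have hs0 : 0 < Real.sin θ := by
    by_contra h
    push Not at h
    nlinarith
  have hcos : 1 / 2 ≤ Real.cos θ := by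
    have := Real.sin_sq_add_cos_sq θ
    nlinarith
  have hsin2 : Real.sin (2 * θ) = 2 * Real.sin θ * Real.cos θ := Real.sin_two_mul θ
  have h1 : 1 ≤ m * Real.sin (2 * θ) := by
    rw [hsin2]
    nlinarith [mul_le_mul_of_nonneg_left hcos (mul_pos hm' hs0).le]
  have hpos : 0 < Real.sin (2 * θ) := by
    rw [hsin2]; positivity
  have hsum := sum_cos (2 * θ) m
  have hle : Real.sin (2 * m * (2 * θ)) ≤ 1 := Real.sin_le_one _
  have hS : ∑ t ∈ Finset.range m, Real.cos ((2 * (t : ℝ) + 1) * (2 * θ)) ≤ m / 2 := by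
    have h2 : 2 * Real.sin (2 * θ) * ∑ t ∈ Finset.range m,
        Real.cos ((2 * (t : ℝ) + 1) * (2 * θ)) ≤ 2 * Real.sin (2 * θ) * (m / 2) := by
      rw [hsum]; nlinarith
    exact le_of_mul_le_mul_left h2 (by positivity)
  have hsq : ∑ t ∈ Finset.range m, Real.sin ((2 * (t : ℝ) + 1) * θ) ^ 2 =
      m / 2 - (∑ t ∈ Finset.range m, Real.cos ((2 * (t : ℝ) + 1) * (2 * θ))) / 2 := by
    have : ∀ t ∈ Finset.range m, Real.sin ((2 * (t : ℝ) + 1) * θ) ^ 2 =
        1 / 2 - Real.cos ((2 * (t : ℝ) + 1) * (2 * θ)) / 2 := by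
      intro t _
      have e : (2 * (t : ℝ) + 1) * (2 * θ) = 2 * ((2 * (t : ℝ) + 1) * θ) := by ring
      rw [e, Real.cos_two_mul, Real.sin_sq]
      ring
    rw [Finset.sum_congr rfl this, Finset.sum_sub_distrib, Finset.sum_const, Finset.card_range,
      nsmul_eq_mul, ← Finset.sum_div]
    ring
  rw [hsq, le_inv_mul_iff₀ hm']
  linarith

end trig

variable {L K : ℕ} [NeZero L] [NeZero K]

/-- A fair `m`-sided die. -/
noncomputable def coinRun (L K : ℕ) [NeZero L] [NeZero K] (m : ℕ) [NeZero m] :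
    Run (Fin L × Fin K) (2 * K) where
  w := 1
  T := 0
  r := 1
  A := fun _ _ => 1
  A_tp := fun _ => by simp
  A_unital := fun _ => by simp
  ρ := (((Fintype.card (Bas (Fin L × Fin K) 1) : ℝ)⁻¹ : ℝ) : ℂ) • 1
  ρ_pos := Matrix.PosSemidef.one.smul (by
    exact_mod_cast (by positivity : (0 : ℝ) ≤ (Fintype.card (Bas (Fin L × Fin K) 1) : ℝ)⁻¹))
  ρ_trace := by
    rw [Matrix.trace_smul, Matrix.trace_one]
    have : (Fintype.card (Bas (Fin L × Fin K) 1) : ℂ) ≠ 0 := by
      exact_mod_cast Fintype.card_ne_zero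
    push_cast
    rw [smul_eq_mul, inv_mul_cancel₀ this]
  ρ_pure := by
    rw [← sub_smul]
    refine Matrix.PosSemidef.one.smul ?_
    have hK : (1 : ℝ) ≤ K := by exact_mod_cast Nat.one_le_iff_ne_zero.2 (NeZero.ne K)
    have h : (0 : ℝ) ≤ 2 * K / (Fintype.card (Bas (Fin L × Fin K) 1) : ℝ) -
        (Fintype.card (Bas (Fin L × Fin K) 1) : ℝ)⁻¹ := by
      rw [div_eq_mul_inv, ← sub_one_mul]
      apply mul_nonneg
      · linarith
      · positivity
    exact_mod_cast h
  m := m
  M := fun _ => (((m : ℝ)⁻¹ : ℝ) : ℂ) • 1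
  M_pos := fun _ => Matrix.PosSemidef.one.smul (by
    exact_mod_cast (by positivity : (0 : ℝ) ≤ (m : ℝ)⁻¹))
  M_sum := by
    rw [Finset.sum_const, Finset.card_univ, Fintype.card_fin, ← Nat.cast_smul_eq_nsmul ℂ,
      smul_smul]
    have : (m : ℂ) ≠ 0 := by exact_mod_cast NeZero.ne m
    push_cast
    rw [mul_inv_cancel₀ this, one_smul]

theorem coinRun_prob (m : ℕ) [NeZero m] (f : Fin L × Fin K → Bool) (o : Fin m) :
    (coinRun L K m).prob f o = (m : ℝ)⁻¹ := by
  rw [Run.prob_eq]
  have h : ((coinRun L K m).M o * (coinRun L K m).state f (coinRun L K m).T).trace =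
      (((m : ℝ)⁻¹ : ℝ) : ℂ) * ((coinRun L K m).state f (coinRun L K m).T).trace := by
    change (((((m : ℝ)⁻¹ : ℝ) : ℂ) • (1 : Op (Fin L × Fin K) (coinRun L K m).w)) * _).trace = _
    rw [Matrix.smul_mul, Matrix.one_mul, Matrix.trace_smul, smul_eq_mul]
  rw [h, Run.state_trace, mul_one, Complex.ofReal_re]

/-- Grover in a random block, then check the measured address classically. -/
noncomputable def attempt (t : ℕ) (next : Protocol (Fin L × Fin K) (2 * K)) :
    Protocol (Fin L × Fin K) (2 * K) :=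
  .run (grRun L K t) fun o =>
    .query ((Fintype.equivFin (Fin L × Fin K)).symm o) fun a =>
      if a = true then .answer true else next

/-- success probability of one attempt -/
noncomputable def succP (L K : ℕ) (t : ℕ) (f : Fin L × Fin K → Bool) : ℝ :=
  (L : ℝ)⁻¹ * ∑ b : Fin L, Real.sin ((2 * t + 1) * ang (fun y => f (b, y))) ^ 2

theorem attempt_accept (t : ℕ) (next : Protocol (Fin L × Fin K) (2 * K))
    (f : Fin L × Fin K → Bool) :
    (attempt t next).accept f = succP L K t f + (1 - succP L K t f) * next.accept f := by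
  have h1 : (attempt t next).accept f = ∑ o, (grRun L K t).prob f o *
      ((if f ((Fintype.equivFin (Fin L × Fin K)).symm o) = true then 1 else 0) +
        (1 - (if f ((Fintype.equivFin (Fin L × Fin K)).symm o) = true then 1 else 0)) *
          next.accept f) := by
    simp only [attempt, Protocol.accept]
    refine Finset.sum_congr rfl fun o _ => ?_
    by_cases h : f ((Fintype.equivFin (Fin L × Fin K)).symm o) = true
    · simp [h, Protocol.accept]
    · simp [h]
  have h2 := grRun_success t f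
  have h3 := (grRun L K t).prob_sum f
  rw [h1]
  have h4 : ∀ o, (grRun L K t).prob f o *
      ((if f ((Fintype.equivFin (Fin L × Fin K)).symm o) = true then 1 else 0) +
        (1 - (if f ((Fintype.equivFin (Fin L × Fin K)).symm o) = true then 1 else 0)) *
          next.accept f) =
      (grRun L K t).prob f o *
        (if f ((Fintype.equivFin (Fin L × Fin K)).symm o) = true then 1 else 0) *
        (1 - next.accept f) + (grRun L K t).prob f o * next.accept f := by
    intro o; ring
  simp only [h4]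
  rw [Finset.sum_add_distrib, ← Finset.sum_mul, ← Finset.sum_mul, h2, h3, succP]
  ring

/-- one round: a direct attempt and an attempt with a random number of iterations -/
noncomputable def round (m : ℕ) [NeZero m] (next : Protocol (Fin L × Fin K) (2 * K)) :
    Protocol (Fin L × Fin K) (2 * K) :=
  attempt 0 (.run (coinRun L K m) fun t : Fin m => attempt t.1 next)

/-- average success probability -/
noncomputable def avgP (L K : ℕ) (m : ℕ) (f : Fin L × Fin K → Bool) : ℝ :=
  (m : ℝ)⁻¹ * ∑ t ∈ Finset.range m, succP L K t f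

theorem round_accept (m : ℕ) [NeZero m] (next : Protocol (Fin L × Fin K) (2 * K))
    (f : Fin L × Fin K → Bool) :
    1 - (round m next).accept f =
      (1 - succP L K 0 f) * (1 - avgP L K m f) * (1 - next.accept f) := by
  have hm : (m : ℝ) ≠ 0 := by exact_mod_cast NeZero.ne m
  have h1 : (Protocol.run (coinRun L K m) fun t : Fin m => attempt t.1 next).accept f =
      avgP L K m f + (1 - avgP L K m f) * next.accept f := by
    have h2 : (Protocol.run (coinRun L K m) fun t : Fin m => attempt t.1 next).accept f =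
        ∑ t : Fin m, (m : ℝ)⁻¹ * (succP L K t.1 f + (1 - succP L K t.1 f) * next.accept f) := by
      simp only [Protocol.accept]
      refine Finset.sum_congr rfl fun o _ => ?_
      rw [attempt_accept, coinRun_prob]
    rw [h2, ← Finset.mul_sum, avgP,
      Fin.sum_univ_eq_sum_range (fun t => succP L K t f + (1 - succP L K t f) * next.accept f) m]
    simp only [sub_mul, one_mul, Finset.sum_add_distrib, Finset.sum_sub_distrib,
      Finset.sum_const, Finset.card_range, nsmul_eq_mul, ← Finset.sum_mul]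
    field_simp
  rw [round, attempt_accept, h1]
  ring

/-- the search protocol with `n` rounds -/
noncomputable def search (L K : ℕ) [NeZero L] [NeZero K] : ℕ → Protocol (Fin L × Fin K) (2 * K)
  | 0 => .answer false
  | n + 1 => round (Nat.sqrt K + 1) (search L K n)

theorem attempt_uses {t : ℕ} {next : Protocol (Fin L × Fin K) (2 * K)} {c q : ℕ}
    (h : next.Uses c q) : (attempt t next).Uses (c + 1) (q + t) := by
  refine ⟨q, le_refl _, fun o => ⟨c, le_refl _, fun b => ?_⟩⟩
  cases b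
  · simpa using h
  · simp [Protocol.Uses]

theorem uses_mono {P : Protocol (Fin L × Fin K) (2 * K)} {c q c' q' : ℕ}
    (h : P.Uses c q) (hc : c ≤ c') (hq : q ≤ q') : P.Uses c' q' := by
  induction P generalizing c q c' q' with
  | answer a => trivial
  | query x next ih =>
    obtain ⟨d, hd, hn⟩ := h
    exact ⟨d, hd.trans hc, fun b => ih b (hn b) le_rfl hq⟩
  | run R next ih =>
    obtain ⟨d, hd, hn⟩ := h
    exact ⟨d, hd.trans hq, fun b => ih b (hn b) hc le_rfl⟩

theorem search_uses (n : ℕ) : (search L K n).Uses (2 * n) (n * Nat.sqrt K) := by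
  induction n with
  | zero => trivial
  | succ n ih =>
    have h1 : (Protocol.run (coinRun L K (Nat.sqrt K + 1)) fun t : Fin (Nat.sqrt K + 1) =>
        attempt t.1 (search L K n)).Uses (2 * n + 1) (n * Nat.sqrt K + Nat.sqrt K) := by
      refine ⟨n * Nat.sqrt K + Nat.sqrt K, le_refl _, fun o => ?_⟩
      refine uses_mono (attempt_uses ih) le_rfl ?_
      have : (o : Fin (Nat.sqrt K + 1)).1 ≤ Nat.sqrt K := Nat.lt_succ_iff.1 o.2
      exact Nat.add_le_add_left this _
    have h2 := attempt_uses (t := 0) h1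
    refine uses_mono h2 ?_ ?_
    · ring_nf; exact le_refl _
    · rw [Nat.succ_mul]; exact le_refl _

theorem search_accept (n : ℕ) (f : Fin L × Fin K → Bool) :
    1 - (search L K n).accept f =
      ((1 - succP L K 0 f) * (1 - avgP L K (Nat.sqrt K + 1) f)) ^ n := by
  induction n with
  | zero => simp [search, Protocol.accept]
  | succ n ih => rw [search, round_accept, ih, pow_succ]; ring

theorem succP_zero (t : ℕ) : succP L K t (fun _ => false) = 0 := by
  have : ang (fun _ : Fin K => false) = 0 := by simp [ang, cnt]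
  simp [succP, this]

theorem search_none (n : ℕ) : (search L K n).accept (fun _ => false) = 0 := by
  have h := search_accept (L := L) (K := K) n (fun _ => false)
  have h2 : avgP L K (Nat.sqrt K + 1) (fun _ => false) = 0 := by
    simp only [avgP, succP_zero, Finset.sum_const_zero, mul_zero]
  rw [succP_zero, h2] at h
  norm_num at h
  exact h

theorem succP_nonneg (t : ℕ) (f : Fin L × Fin K → Bool) : 0 ≤ succP L K t f := by
  unfold succP; positivity

theorem succP_le_one (t : ℕ) (f : Fin L × Fin K → Bool) : succP L K t f ≤ 1 := by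
  have hL : (0 : ℝ) < L := by exact_mod_cast Nat.pos_of_ne_zero (NeZero.ne L)
  rw [succP, inv_mul_le_iff₀ hL, mul_one]
  calc ∑ b : Fin L, Real.sin ((2 * t + 1) * ang (fun y => f (b, y))) ^ 2
      ≤ ∑ _b : Fin L, (1 : ℝ) := Finset.sum_le_sum fun b _ => Real.sin_sq_le_one _
    _ = L := by simp

theorem succP_ge (t : ℕ) (f : Fin L × Fin K → Bool) (b : Fin L) :
    (L : ℝ)⁻¹ * Real.sin ((2 * t + 1) * ang (fun y => f (b, y))) ^ 2 ≤ succP L K t f := by
  have hL : (0 : ℝ) < L := by exact_mod_cast Nat.pos_of_ne_zero (NeZero.ne L)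
  rw [succP]
  gcongr
  exact Finset.single_le_sum
    (f := fun b : Fin L => Real.sin ((2 * t + 1) * ang (fun y => f (b, y))) ^ 2)
    (fun b _ => sq_nonneg _) (Finset.mem_univ b)

theorem avgP_nonneg (m : ℕ) (f : Fin L × Fin K → Bool) : 0 ≤ avgP L K m f := by
  unfold avgP
  exact mul_nonneg (by positivity) (Finset.sum_nonneg fun t _ => succP_nonneg t f)

theorem avgP_le_one (m : ℕ) [NeZero m] (f : Fin L × Fin K → Bool) : avgP L K m f ≤ 1 := by
  have hm : (0 : ℝ) < m := by exact_mod_cast Nat.pos_of_ne_zero (NeZero.ne m)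
  rw [avgP, inv_mul_le_iff₀ hm, mul_one]
  calc ∑ t ∈ Finset.range m, succP L K t f ≤ ∑ _t ∈ Finset.range m, (1 : ℝ) :=
        Finset.sum_le_sum fun t _ => succP_le_one t f
    _ = m := by simp

theorem round_ge (f : Fin L × Fin K → Bool) (hf : ∃ x, f x = true) :
    (1 - succP L K 0 f) * (1 - avgP L K (Nat.sqrt K + 1) f) ≤ 1 - (4 * L : ℝ)⁻¹ := by
  obtain ⟨⟨b, y⟩, hby⟩ := hf
  have hL : (0 : ℝ) < L := by exact_mod_cast Nat.pos_of_ne_zero (NeZero.ne L)
  have hK : (0 : ℝ) < K := by exact_mod_cast Nat.pos_of_ne_zero (NeZero.ne K)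
  have hsK : 0 < √(K : ℝ) := Real.sqrt_pos.2 hK
  set g : Fin K → Bool := fun y => f (b, y) with hg
  have hcnt : 1 ≤ cnt g := Finset.card_pos.2 ⟨y, by simp [hg, hby]⟩
  have hs := sin_ang g
  have hc := cos_ang g
  have hcos : 0 ≤ Real.cos (ang g) := by
    by_contra h
    push Not at h
    have := mul_neg_of_pos_of_neg hsK h
    rw [hc] at this
    exact absurd (Real.sqrt_nonneg _) (not_le.2 this)
  have hsin : 1 ≤ √K * Real.sin (ang g) := by
    rw [hs, Real.one_le_sqrt]; exact_mod_cast hcnt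
  have hsin0 : 0 < Real.sin (ang g) := by
    by_contra h
    push Not at h
    nlinarith
  have hm : √(K : ℝ) ≤ ((Nat.sqrt K + 1 : ℕ) : ℝ) := by
    rw [Real.sqrt_le_left (by positivity)]
    have := (Nat.lt_succ_sqrt K).le
    calc (K : ℝ) ≤ ((Nat.succ (Nat.sqrt K) * Nat.succ (Nat.sqrt K) : ℕ) : ℝ) := by
          exact_mod_cast this
      _ = ((Nat.sqrt K + 1 : ℕ) : ℝ) ^ 2 := by push_cast; ring
  have h0 := succP_nonneg 0 f
  have h1 := succP_le_one 0 f
  have h2 := avgP_nonneg (Nat.sqrt K + 1) f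
  have h3 := avgP_le_one (Nat.sqrt K + 1) f
  have h4L : (4 * L : ℝ)⁻¹ = (L : ℝ)⁻¹ * (1 / 4) := by
    field_simp
  by_cases h4 : Real.sin (ang g) ^ 2 < 1 / 4
  · -- random number of iterations
    have hb := bbht (θ := ang g) (m := Nat.sqrt K + 1) (Nat.succ_pos _) hcos
      (hsin.trans (mul_le_mul_of_nonneg_right hm hsin0.le)) h4
    have hbig : (4 * L : ℝ)⁻¹ ≤ avgP L K (Nat.sqrt K + 1) f := by
      rw [h4L, avgP]
      calc (L : ℝ)⁻¹ * (1 / 4) ≤ (L : ℝ)⁻¹ * (((Nat.sqrt K + 1 : ℕ) : ℝ)⁻¹ *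
            ∑ t ∈ Finset.range (Nat.sqrt K + 1), Real.sin ((2 * (t : ℝ) + 1) * ang g) ^ 2) := by
            gcongr
        _ = ((Nat.sqrt K + 1 : ℕ) : ℝ)⁻¹ * ∑ t ∈ Finset.range (Nat.sqrt K + 1),
            ((L : ℝ)⁻¹ * Real.sin ((2 * (t : ℝ) + 1) * ang g) ^ 2) := by
            rw [← Finset.mul_sum]; ring
        _ ≤ _ := by
            gcongr with t _
            exact succP_ge t f b
    nlinarith
  · push Not at h4
    have hbig : (4 * L : ℝ)⁻¹ ≤ succP L K 0 f := by
      rw [h4L]
      refine le_trans ?_ (succP_ge 0 f b)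
      rw [Nat.cast_zero, mul_zero, zero_add, one_mul]
      gcongr
    nlinarith

theorem search_some (f : Fin L × Fin K → Bool) (hf : ∃ x, f x = true) :
    2 / 3 ≤ (search L K (5 * L)).accept f := by
  have hL : (0 : ℝ) < L := by exact_mod_cast Nat.pos_of_ne_zero (NeZero.ne L)
  have hL1 : (1 : ℝ) ≤ L := by exact_mod_cast Nat.one_le_iff_ne_zero.2 (NeZero.ne L)
  have h := search_accept (L := L) (K := K) (5 * L) f
  have h1 := round_ge f hf
  have h0 : 0 ≤ (1 - succP L K 0 f) * (1 - avgP L K (Nat.sqrt K + 1) f) :=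
    mul_nonneg (sub_nonneg.2 (succP_le_one 0 f)) (sub_nonneg.2 (avgP_le_one _ f))
  have h2 : ((1 - succP L K 0 f) * (1 - avgP L K (Nat.sqrt K + 1) f)) ^ (5 * L) ≤
      Real.exp (-(4 * L : ℝ)⁻¹) ^ (5 * L) := by
    apply pow_le_pow_left₀ h0
    refine h1.trans ?_
    have := Real.add_one_le_exp (-(4 * L : ℝ)⁻¹)
    linarith
  have h3 : Real.exp (-(4 * L : ℝ)⁻¹) ^ (5 * L) = Real.exp (-(5 / 4)) := by
    rw [← Real.exp_nat_mul]
    congr 1
    push_cast
    field_simp
  have h4 : Real.exp (-(5 / 4)) ≤ 1 / 3 := by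
    rw [Real.exp_neg, inv_le_comm₀ (Real.exp_pos _) (by norm_num)]
    have e1 : Real.exp (5 / 4) = Real.exp 1 * Real.exp (1 / 4) := by
      rw [← Real.exp_add]; norm_num
    have e2 := Real.add_one_le_exp (1 / 4 : ℝ)
    have e3 := Real.exp_one_gt_d9
    rw [e1]
    nlinarith [Real.exp_pos (1 : ℝ)]
  linarith [h2.trans (h3 ▸ h4)]

end Pool.Agent.H18.Clean
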