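import Pool.Agent.H18.Clean.Upper

/-!
# The search protocol
-/

set_option linter.unusedSectionVars false

namespace Pool.Agent.H18.Clean

open Matrix
open scoped ComplexOrder MatrixOrder

variable {L K : ℕ} [NeZero L] [NeZero K]

theorem star_vec_dotProduct (b b' : Fin L) (ψ φ : Fin K → ℝ) :
    star (vec b ψ) ⬝ᵥ vec b' φ = if b = b' then ((∑ y, ψ y * φ y : ℝ) : ℂ) else 0 := by
  simp only [dotProduct, Pi.star_apply, vec]
  rw [Fintype.sum_prod_type, Fintype.sum_prod_type]
  by_cases h : b = b'
  · subst h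
    rw [if_pos rfl, Finset.sum_eq_single b]
    · simp only [if_true]
      rw [Complex.ofReal_sum]
      refine Finset.sum_congr rfl fun y _ => ?_
      rw [Fintype.sum_prod_type]
      have : ∀ c : Bool, (∑ _z : Fin 1, star (((ψ y : ℝ) : ℂ) * sg c) * (((φ y : ℝ) : ℂ) * sg c)) =
          ((ψ y * φ y : ℝ) : ℂ) * (star (sg c) * sg c) := by
        intro c
        rw [Finset.sum_const, Finset.card_univ, Fintype.card_fin, one_smul, star_mul]
        simp only [Complex.star_def, Complex.conj_ofReal]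
        push_cast
        ring
      simp only [this]
      rw [← Finset.mul_sum, sum_star_sg, mul_one]
    · intro c _ hc
      simp [hc]
    · simp
  · rw [if_neg h]
    apply Finset.sum_eq_zero
    intro c _
    apply Finset.sum_eq_zero
    intro y _
    apply Finset.sum_eq_zero
    intro z _
    by_cases hb : c = b
    · have : c ≠ b' := fun h' => h (hb.symm.trans h')
      simp [this]
    · simp [hb]

/-- the rank one operator of a block state -/
noncomputable def rk (b : Fin L) (ψ : Fin K → ℝ) : Op (Fin L × Fin K) 1 :=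
  Matrix.vecMulVec (vec b ψ) (star (vec b ψ))

theorem rk_mul_rk (b b' : Fin L) (ψ φ : Fin K → ℝ) (h : b ≠ b') : rk b ψ * rk b' φ = 0 := by
  rw [rk, rk, Matrix.vecMulVec_mul_vecMulVec, star_vec_dotProduct, if_neg h]
  simp

theorem rk_mul_self (b : Fin L) (ψ : Fin K → ℝ) (h : ∑ y, ψ y * ψ y = 1) :
    rk b ψ * rk b ψ = rk b ψ := by
  rw [rk, Matrix.vecMulVec_mul_vecMulVec, star_vec_dotProduct, if_pos rfl, h]
  simp

theorem rk_conj (b : Fin L) (ψ : Fin K → ℝ) : (rk b ψ)ᴴ = rk b ψ := by
  rw [rk, Matrix.conjTranspose_vecMulVec, star_star]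

theorem mul_rk_mul (U : Op (Fin L × Fin K) 1) (b : Fin L) (ψ φ : Fin K → ℝ)
    (h : U *ᵥ vec b ψ = vec b φ) : U * rk b ψ * Uᴴ = rk b φ := by
  rw [rk, Matrix.mul_vecMulVec, Matrix.vecMulVec_mul, h, rk, ← h, Matrix.star_mulVec]

theorem uniform_norm : ∑ _y : Fin K, (√(K : ℝ))⁻¹ * (√(K : ℝ))⁻¹ = 1 := by
  have hK : (0 : ℝ) < K := by exact_mod_cast Nat.pos_of_ne_zero (NeZero.ne K)
  rw [Finset.sum_const, Finset.card_univ, Fintype.card_fin, nsmul_eq_mul, ← mul_inv,
    Real.mul_self_sqrt hK.le]
  field_simp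

/-- The initial state: uniformly random block, uniform superposition inside the block. -/
noncomputable def initState (L K : ℕ) : Op (Fin L × Fin K) 1 :=
  (((L : ℝ)⁻¹ : ℝ) : ℂ) • ∑ b : Fin L, rk b (fun _ : Fin K => (√(K : ℝ))⁻¹)

theorem initState_pos : (initState L K).PosSemidef := by
  refine Matrix.PosSemidef.smul (Matrix.posSemidef_sum _ fun b _ =>
    Matrix.posSemidef_vecMulVec_self_star _) ?_
  exact_mod_cast (by positivity : (0 : ℝ) ≤ (L : ℝ)⁻¹)

theorem initState_trace : (initState L K).trace = 1 := by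
  have hL : (L : ℂ) ≠ 0 := by exact_mod_cast NeZero.ne L
  rw [initState, Matrix.trace_smul, Matrix.trace_sum]
  have : ∀ b : Fin L, (rk b (fun _ : Fin K => (√(K : ℝ))⁻¹)).trace = 1 := by
    intro b
    rw [rk, Matrix.trace_vecMulVec, dotProduct_comm, star_vec_dotProduct, if_pos rfl, uniform_norm]
    simp
  simp only [this]
  rw [Finset.sum_const, Finset.card_univ, Fintype.card_fin]
  simp [hL]

theorem initState_pure :
    ((((2 * K : ℝ) / (Fintype.card (Bas (Fin L × Fin K) 1) : ℝ) : ℝ) : ℂ) •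
      (1 : Op (Fin L × Fin K) 1) - initState L K).PosSemidef := by
  have hL : (L : ℝ) ≠ 0 := by exact_mod_cast NeZero.ne L
  have hK : (K : ℝ) ≠ 0 := by exact_mod_cast NeZero.ne K
  have hD : (2 * K : ℝ) / (Fintype.card (Bas (Fin L × Fin K) 1) : ℝ) = (L : ℝ)⁻¹ := by
    simp only [Bas, Fintype.card_prod, Fintype.card_fin, Fintype.card_bool]
    push_cast
    field_simp
  rw [hD]
  set Q : Op (Fin L × Fin K) 1 := ∑ b : Fin L, rk b (fun _ : Fin K => (√(K : ℝ))⁻¹) with hQ
  have hQh : Qᴴ = Q := by
    rw [hQ, Matrix.conjTranspose_sum]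
    exact Finset.sum_congr rfl fun b _ => rk_conj _ _
  have hQ2 : Q * Q = Q := by
    rw [hQ, Matrix.sum_mul]
    refine Finset.sum_congr rfl fun b _ => ?_
    rw [Matrix.mul_sum, Finset.sum_eq_single b]
    · exact rk_mul_self _ _ uniform_norm
    · intro c _ hc
      exact rk_mul_rk _ _ _ _ hc.symm
    · simp
  have h1 : (1 - Q).PosSemidef := by
    have := Matrix.posSemidef_conjTranspose_mul_self (1 - Q)
    rw [Matrix.conjTranspose_sub, hQh, Matrix.conjTranspose_one] at this
    have h : (1 - Q) * (1 - Q) = 1 - Q := by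
      simp only [Matrix.sub_mul, Matrix.mul_sub, hQ2, Matrix.one_mul, Matrix.mul_one]
      simp
    rwa [h] at this
  have h2 : (((L : ℝ)⁻¹ : ℝ) : ℂ) • (1 : Op (Fin L × Fin K) 1) - initState L K =
      (((L : ℝ)⁻¹ : ℝ) : ℂ) • (1 - Q) := by
    rw [initState, smul_sub]
  rw [h2]
  refine h1.smul ?_
  exact_mod_cast (by positivity : (0 : ℝ) ≤ (L : ℝ)⁻¹)

/-- measurement of the address register -/
noncomputable def measAddr (X : Type) [Fintype X] [DecidableEq X] (w : ℕ)
    (o : Fin (Fintype.card X)) : Op X w :=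
  Matrix.diagonal fun i => if i.1 = (Fintype.equivFin X).symm o then 1 else 0

theorem measAddr_pos (X : Type) [Fintype X] [DecidableEq X] (w : ℕ)
    (o : Fin (Fintype.card X)) : (measAddr X w o).PosSemidef := by
  apply Matrix.PosSemidef.diagonal
  intro i
  simp only [Pi.zero_apply]
  split_ifs
  · exact zero_le_one
  · exact le_refl _

theorem measAddr_sum (X : Type) [Fintype X] [DecidableEq X] (w : ℕ) :
    ∑ o, measAddr X w o = 1 := by
  ext i j
  rw [Matrix.sum_apply]
  simp only [measAddr, Matrix.diagonal_apply, Matrix.one_apply]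
  by_cases h : i = j
  · subst h
    simp only [if_true]
    rw [Finset.sum_eq_single (Fintype.equivFin X i.1)]
    · simp
    · intro o _ ho
      rw [if_neg]
      rintro h'
      apply ho
      rw [h', Equiv.apply_symm_apply]
    · simp
  · simp [h]

/-- the unitaries of the Grover run: nothing before the first query, then the diffusion -/
noncomputable def grOp (L K : ℕ) (s : ℕ) : Op (Fin L × Fin K) 1 :=
  if s = 0 then 1 else diffOp L K

theorem grOp_conj (s : ℕ) : (grOp L K s)ᴴ = grOp L K s := by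
  rw [grOp]; split_ifs
  · simp
  · exact diffOp_conj

theorem grOp_mul_self (s : ℕ) : grOp L K s * grOp L K s = 1 := by
  rw [grOp]; split_ifs
  · simp
  · exact diffOp_mul_self

/-- Grover search for `t` iterations inside a random block. -/
noncomputable def grRun (L K : ℕ) [NeZero L] [NeZero K] (t : ℕ) :
    Run (Fin L × Fin K) (2 * K) where
  w := 1
  T := t
  r := 1
  A := fun s _ => grOp L K s
  A_tp := fun s => by simp [grOp_conj, grOp_mul_self]
  A_unital := fun s => by simp [grOp_conj, grOp_mul_self]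
  ρ := initState L K
  ρ_pos := initState_pos
  ρ_trace := initState_trace
  ρ_pure := initState_pure
  m := Fintype.card (Fin L × Fin K)
  M := measAddr _ 1
  M_pos := measAddr_pos _ 1
  M_sum := measAddr_sum _ 1

/-- the state of `grRun` -/
noncomputable def grState (L K : ℕ) [NeZero L] [NeZero K] (t : ℕ) (f : Fin L × Fin K → Bool)
    (s : ℕ) : Op (Fin L × Fin K) 1 := (grRun L K t).state f s

theorem grState_zero (t : ℕ) (f : Fin L × Fin K → Bool) :
    grState L K t f 0 = initState L K := by
  have h : grState L K t f 0 = ∑ _i : Fin 1, grOp L K 0 * initState L K * (grOp L K 0)ᴴ := rfl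
  rw [h, grOp]
  simp

theorem grState_succ (t : ℕ) (f : Fin L × Fin K → Bool) (s : ℕ) :
    grState L K t f (s + 1) =
      diffOp L K * (oracle 1 f * grState L K t f s * (oracle 1 f)ᴴ) * (diffOp L K)ᴴ := by
  have h : grState L K t f (s + 1) = ∑ _i : Fin 1, grOp L K (s + 1) *
      (oracle 1 f * grState L K t f s * (oracle 1 f)ᴴ) * (grOp L K (s + 1))ᴴ := rfl
  rw [h, grOp]
  simp

theorem grRun_state (t : ℕ) (f : Fin L × Fin K → Bool) (s : ℕ) :
    grState L K t f s =
      (((L : ℝ)⁻¹ : ℝ) : ℂ) • ∑ b : Fin L, rk b (amp (fun y => f (b, y)) s) := by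
  induction s with
  | zero => rw [grState_zero]; rfl
  | succ s ih =>
    rw [grState_succ, ih]
    rw [Matrix.mul_smul, Matrix.smul_mul, Matrix.mul_smul, Matrix.smul_mul, Matrix.mul_sum,
      Matrix.sum_mul, Matrix.mul_sum, Matrix.sum_mul]
    congr 1
    refine Finset.sum_congr rfl fun b _ => ?_
    rw [mul_rk_mul _ b _ _ (oracle_vec f b _), mul_rk_mul _ b _ _ (diffOp_vec b _)]
    rfl

theorem trace_diagonal_mul_rk (d : Bas (Fin L × Fin K) 1 → ℂ) (b : Fin L) (ψ : Fin K → ℝ)
    (a : Fin L × Fin K) (hd : d = fun i => if i.1 = a then 1 else 0) :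
    (Matrix.diagonal d * rk b ψ).trace = if a.1 = b then ((ψ a.2 ^ 2 : ℝ) : ℂ) else 0 := by
  subst hd
  simp only [Matrix.trace, Matrix.diag, Matrix.diagonal_mul, rk, Matrix.vecMulVec_apply,
    Pi.star_apply]
  rw [Fintype.sum_prod_type, Finset.sum_eq_single a]
  · simp only [if_true, one_mul, vec]
    by_cases h : a.1 = b
    · simp only [h, if_true]
      rw [Fintype.sum_prod_type]
      have : ∀ c : Bool, (∑ _z : Fin 1, (((ψ a.2 : ℝ) : ℂ) * sg c) * star (((ψ a.2 : ℝ) : ℂ) * sg c)) =
          ((ψ a.2 ^ 2 : ℝ) : ℂ) * (star (sg c) * sg c) := by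
        intro c
        rw [Finset.sum_const, Finset.card_univ, Fintype.card_fin, one_smul, star_mul]
        simp only [Complex.star_def, Complex.conj_ofReal]
        push_cast
        ring
      simp only [this]
      rw [← Finset.mul_sum, sum_star_sg, mul_one]
    · simp [h]
  · intro x _ hx
    simp [hx]
  · simp

theorem grRun_prob (t : ℕ) (f : Fin L × Fin K → Bool)
    (o : Fin (Fintype.card (Fin L × Fin K))) :
    (grRun L K t).prob f o =
      (L : ℝ)⁻¹ * amp (fun y => f (((Fintype.equivFin (Fin L × Fin K)).symm o).1, y)) t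
        ((Fintype.equivFin (Fin L × Fin K)).symm o).2 ^ 2 := by
  set a := (Fintype.equivFin (Fin L × Fin K)).symm o with ha
  have h0 : (grRun L K t).prob f o = ((measAddr _ 1 o * grState L K t f t).trace).re := rfl
  rw [h0, grRun_state, Matrix.mul_smul, Matrix.trace_smul, Matrix.mul_sum, Matrix.trace_sum]
  have : ∀ b : Fin L, (measAddr (Fin L × Fin K) 1 o * rk b (amp (fun y => f (b, y)) t)).trace =
      if a.1 = b then ((amp (fun y => f (b, y)) t a.2 ^ 2 : ℝ) : ℂ) else 0 := by
    intro b
    exact trace_diagonal_mul_rk _ b _ a (by rw [ha])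
  simp only [this]
  rw [Finset.sum_ite_eq, if_pos (Finset.mem_univ _), smul_eq_mul, Complex.re_ofReal_mul,
    Complex.ofReal_re]

/-- The probability that the measured address is marked. -/
theorem grRun_success (t : ℕ) (f : Fin L × Fin K → Bool) :
    ∑ o, (grRun L K t).prob f o *
      (if f ((Fintype.equivFin (Fin L × Fin K)).symm o) = true then 1 else 0) =
      (L : ℝ)⁻¹ * ∑ b : Fin L, Real.sin ((2 * t + 1) * ang (fun y => f (b, y))) ^ 2 := by
  have h1 : ∀ o, (grRun L K t).prob f o *
      (if f ((Fintype.equivFin (Fin L × Fin K)).symm o) = true then 1 else 0) =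
      (fun a : Fin L × Fin K => (L : ℝ)⁻¹ *
        (if f (a.1, a.2) = true then amp (fun y => f (a.1, y)) t a.2 ^ 2 else 0))
        ((Fintype.equivFin (Fin L × Fin K)).symm o) := by
    intro o
    rw [grRun_prob]
    simp only [Prod.mk.eta]
    split_ifs <;> simp
  simp only [h1]
  change ∑ o : Fin (Fintype.card (Fin L × Fin K)), _ = _
  rw [Equiv.sum_comp (Fintype.equivFin (Fin L × Fin K)).symm (fun a : Fin L × Fin K => (L : ℝ)⁻¹ *
        (if f (a.1, a.2) = true then amp (fun y => f (a.1, y)) t a.2 ^ 2 else 0))]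
  rw [← Finset.mul_sum, Fintype.sum_prod_type]
  congr 1
  refine Finset.sum_congr rfl fun b _ => ?_
  exact sum_amp_sq (fun y => f (b, y)) t

end Pool.Agent.H18.Clean
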