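import Pool.Agent.H18.Clean.Lower

/-!
# Grover search on random blocks with few clean qubits
-/

set_option linter.unusedSectionVars false

namespace Pool.Agent.H18.Clean

open Matrix
open scoped ComplexOrder MatrixOrder

variable {L K : ℕ} [NeZero L] [NeZero K]

/-- sign of the target state `|−⟩` -/
noncomputable def sg (c : Bool) : ℂ := if c then -(((√2)⁻¹ : ℝ) : ℂ) else (((√2)⁻¹ : ℝ) : ℂ)

theorem sg_xor (c d : Bool) : sg (xor c d) = (if d then -1 else 1) * sg c := by
  cases c <;> cases d <;> simp [sg]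

theorem sum_star_sg : ∑ c : Bool, star (sg c) * sg c = 1 := by
  have h : (((√2)⁻¹ : ℝ) : ℂ) * (((√2)⁻¹ : ℝ) : ℂ) = 1 / 2 := by
    rw [← Complex.ofReal_mul, ← mul_inv, Real.mul_self_sqrt (by norm_num)]
    norm_num
  simp only [Fintype.sum_bool, sg, if_true, Complex.star_def, map_neg, Complex.conj_ofReal,
    neg_mul_neg, h]
  norm_num
  rw [← Complex.ofReal_inv, h]
  norm_num

/-- `|b⟩ ⊗ |ψ⟩ ⊗ |−⟩` -/
noncomputable def vec (b : Fin L) (ψ : Fin K → ℝ) : Bas (Fin L × Fin K) 1 → ℂ :=
  fun i => if i.1.1 = b then ((ψ i.1.2 : ℝ) : ℂ) * sg i.2.1 else 0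

theorem oracle_mulVec {X : Type} [Fintype X] [DecidableEq X] (w : ℕ) (f : X → Bool)
    (v : Bas X w → ℂ) :
    oracle w f *ᵥ v = fun i => v (i.1, xor i.2.1 (f i.1), i.2.2) := by
  ext i
  simp only [Matrix.mulVec, dotProduct, oracle, Matrix.of_apply]
  rw [Finset.sum_eq_single (i.1, xor i.2.1 (f i.1), i.2.2)]
  · rw [if_pos, one_mul]
    ext <;> simp
  · intro k _ hk
    rw [if_neg, zero_mul]
    rintro rfl
    apply hk
    ext <;> simp
  · simp

theorem oracle_vec (f : Fin L × Fin K → Bool) (b : Fin L) (ψ : Fin K → ℝ) :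
    oracle 1 f *ᵥ vec b ψ = vec b (fun y => (if f (b, y) then -1 else 1) * ψ y) := by
  rw [oracle_mulVec]
  ext i
  simp only [vec]
  by_cases h : i.1.1 = b
  · rw [if_pos h, if_pos h, sg_xor]
    have : f i.1 = f (b, i.1.2) := by rw [← h]
    rw [this]
    cases f (b, i.1.2) <;> simp
  · rw [if_neg h, if_neg h]

/-- average over the position inside the block -/
noncomputable def avgOp (L K : ℕ) : Op (Fin L × Fin K) 1 :=
  Matrix.of fun i j => if j.1.1 = i.1.1 ∧ j.2 = i.2 then (((K : ℝ)⁻¹ : ℝ) : ℂ) else 0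

theorem sum_bas (F : Bas (Fin L × Fin K) 1 → ℂ) (i : Bas (Fin L × Fin K) 1) :
    ∑ j : Bas (Fin L × Fin K) 1, (if j.1.1 = i.1.1 ∧ j.2 = i.2 then F j else 0) =
      ∑ y : Fin K, F ((i.1.1, y), i.2) := by
  classical
  rw [Fintype.sum_prod_type, Fintype.sum_prod_type]
  rw [Finset.sum_eq_single i.1.1]
  · refine Finset.sum_congr rfl fun y _ => ?_
    rw [Finset.sum_eq_single i.2]
    · simp
    · intro j _ hj
      simp [hj]
    · simp
  · intro b _ hb
    simp [hb]
  · simp

theorem avgOp_conj : (avgOp L K)ᴴ = avgOp L K := by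
  ext i j
  simp only [avgOp, Matrix.conjTranspose_apply, Matrix.of_apply]
  by_cases h : i.1.1 = j.1.1 ∧ i.2 = j.2
  · rw [if_pos h, if_pos ⟨h.1.symm, h.2.symm⟩]
    simp
  · rw [if_neg h, if_neg (fun h' => h ⟨h'.1.symm, h'.2.symm⟩)]
    simp

theorem avgOp_mul_self : avgOp L K * avgOp L K = avgOp L K := by
  have hK : (K : ℂ) ≠ 0 := by exact_mod_cast NeZero.ne K
  ext i k
  rw [Matrix.mul_apply]
  have : ∀ j : Bas (Fin L × Fin K) 1, avgOp L K i j * avgOp L K j k =
      if j.1.1 = i.1.1 ∧ j.2 = i.2 then (((K : ℝ)⁻¹ : ℝ) : ℂ) * avgOp L K j k else 0 := by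
    intro j
    conv_lhs => rw [avgOp, Matrix.of_apply]
    rw [ite_mul, zero_mul]
    rfl
  simp only [this]
  rw [sum_bas (fun j => (((K : ℝ)⁻¹ : ℝ) : ℂ) * avgOp L K j k) i]
  simp only [avgOp, Matrix.of_apply]
  by_cases h : k.1.1 = i.1.1 ∧ k.2 = i.2
  · simp only [h, and_self, if_true]
    rw [Finset.sum_const, Finset.card_univ, Fintype.card_fin, nsmul_eq_mul]
    push_cast
    field_simp
  · simp only [h, if_false, mul_zero, Finset.sum_const_zero]

theorem avgOp_vec (b : Fin L) (ψ : Fin K → ℝ) :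
    avgOp L K *ᵥ vec b ψ = vec b (fun _ => (K : ℝ)⁻¹ * ∑ y, ψ y) := by
  ext i
  simp only [Matrix.mulVec, dotProduct]
  have : ∀ j : Bas (Fin L × Fin K) 1, avgOp L K i j * vec b ψ j =
      if j.1.1 = i.1.1 ∧ j.2 = i.2 then (((K : ℝ)⁻¹ : ℝ) : ℂ) * vec b ψ j else 0 := by
    intro j
    rw [avgOp, Matrix.of_apply, ite_mul, zero_mul]
  simp only [this]
  rw [sum_bas (fun j => (((K : ℝ)⁻¹ : ℝ) : ℂ) * vec b ψ j) i]
  simp only [vec]
  by_cases h : i.1.1 = b
  · simp only [h, if_true]
    push_cast
    rw [Finset.mul_sum, Finset.sum_mul]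
    refine Finset.sum_congr rfl fun y _ => ?_
    ring
  · simp only [h, if_false, mul_zero, Finset.sum_const_zero]

/-- Grover's diffusion operator inside the blocks -/
noncomputable def diffOp (L K : ℕ) : Op (Fin L × Fin K) 1 := (2 : ℂ) • avgOp L K - 1

theorem diffOp_conj : (diffOp L K)ᴴ = diffOp L K := by
  rw [diffOp, Matrix.conjTranspose_sub, Matrix.conjTranspose_smul, avgOp_conj]
  simp

theorem diffOp_mul_self : diffOp L K * diffOp L K = 1 := by
  rw [diffOp]
  simp only [Matrix.sub_mul, Matrix.mul_sub, Matrix.one_mul, Matrix.mul_one, Matrix.smul_mul,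
    Matrix.mul_smul, avgOp_mul_self]
  module

theorem vec_sub (b : Fin L) (ψ φ : Fin K → ℝ) : vec b ψ - vec b φ = vec b (ψ - φ) := by
  ext i
  simp only [vec, Pi.sub_apply]
  by_cases h : i.1.1 = b
  · simp only [h, if_true]
    push_cast
    ring
  · simp only [h, if_false, sub_zero]

theorem vec_smul (b : Fin L) (ψ : Fin K → ℝ) (r : ℝ) :
    (r : ℂ) • vec b ψ = vec b (r • ψ) := by
  ext i
  simp only [vec, Pi.smul_apply, smul_eq_mul]
  by_cases h : i.1.1 = b
  · simp only [h, if_true]
    push_cast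
    ring
  · simp only [h, if_false, mul_zero]

theorem diffOp_vec (b : Fin L) (ψ : Fin K → ℝ) :
    diffOp L K *ᵥ vec b ψ = vec b (fun y => 2 * ((K : ℝ)⁻¹ * ∑ y, ψ y) - ψ y) := by
  rw [diffOp, Matrix.sub_mulVec, Matrix.smul_mulVec, avgOp_vec, Matrix.one_mulVec,
    show (2 : ℂ) = ((2 : ℝ) : ℂ) by norm_num, vec_smul, vec_sub]
  rfl

/-- amplitudes after `t` Grover iterations, `g` the marked positions -/
noncomputable def amp (g : Fin K → Bool) : ℕ → Fin K → ℝ
  | 0 => fun _ => (√K)⁻¹
  | t + 1 => fun y => 2 * ((K : ℝ)⁻¹ * ∑ z, (if g z then -1 else 1) * amp g t z) -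
      (if g y then -1 else 1) * amp g t y

/-- number of marked positions -/
def cnt (g : Fin K → Bool) : ℕ := (Finset.univ.filter fun y => g y = true).card

/-- the Grover angle -/
noncomputable def ang (g : Fin K → Bool) : ℝ := Real.arcsin (√(cnt g / K))

theorem cnt_le (g : Fin K → Bool) : cnt g ≤ K := by
  have := Finset.card_le_univ (Finset.univ.filter fun y => g y = true)
  simpa [cnt] using this

theorem sin_ang (g : Fin K → Bool) : √K * Real.sin (ang g) = √(cnt g) := by
  have hK : (0 : ℝ) < K := by exact_mod_cast Nat.pos_of_ne_zero (NeZero.ne K)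
  have h1 : (cnt g : ℝ) / K ≤ 1 := by
    rw [div_le_one hK]; exact_mod_cast cnt_le g
  have h0 : (0 : ℝ) ≤ (cnt g : ℝ) / K := by positivity
  rw [ang, Real.sin_arcsin (by linarith [Real.sqrt_nonneg ((cnt g : ℝ) / K)])
    (Real.sqrt_le_one.2 h1), Real.sqrt_div (by positivity), mul_div_cancel₀]
  positivity

theorem cos_ang (g : Fin K → Bool) : √K * Real.cos (ang g) = √((K : ℝ) - cnt g) := by
  have hK : (0 : ℝ) < K := by exact_mod_cast Nat.pos_of_ne_zero (NeZero.ne K)
  have h0 : (0 : ℝ) ≤ (cnt g : ℝ) / K := by positivity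
  rw [ang, Real.cos_arcsin, Real.sq_sqrt h0, ← Real.sqrt_mul hK.le]
  congr 1
  field_simp

theorem amp_eq (g : Fin K → Bool) (t : ℕ) (y : Fin K) :
    amp g t y = if g y then Real.sin ((2 * t + 1) * ang g) / √(cnt g)
      else Real.cos ((2 * t + 1) * ang g) / √((K : ℝ) - cnt g) := by
  have hK : (0 : ℝ) < K := by exact_mod_cast Nat.pos_of_ne_zero (NeZero.ne K)
  have hsK : 0 < √(K : ℝ) := Real.sqrt_pos.2 hK
  have hs := sin_ang g
  have hc := cos_ang g
  -- if some position is marked then `cnt > 0`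
  have hm : ∀ y, g y = true → 0 < √(cnt g : ℝ) := by
    intro y hy
    apply Real.sqrt_pos.2
    have : 0 < cnt g := Finset.card_pos.2 ⟨y, by simp [hy]⟩
    exact_mod_cast this
  have hu : ∀ y, g y = false → 0 < √((K : ℝ) - cnt g) := by
    intro y hy
    apply Real.sqrt_pos.2
    have : cnt g < K := by
      have h1 : (Finset.univ.filter fun y => g y = true) ⊂ Finset.univ := by
        refine Finset.ssubset_univ_iff.2 fun h => ?_
        have h2 : y ∈ (Finset.univ.filter fun y => g y = true) := by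
          rw [h]; exact Finset.mem_univ y
        simp [hy] at h2
      have := Finset.card_lt_card h1
      simpa [cnt] using this
    have h2 : (cnt g : ℝ) < K := by exact_mod_cast this
    linarith
  induction t generalizing y with
  | zero =>
    simp only [amp]
    by_cases hy : g y = true
    · rw [if_pos hy, Nat.cast_zero, mul_zero, zero_add, one_mul, eq_div_iff (hm y hy).ne', ← hs]
      field_simp
    · rw [if_neg hy, Nat.cast_zero, mul_zero, zero_add, one_mul,
        eq_div_iff (hu y (by simpa using hy)).ne', ← hc]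
      field_simp
  | succ t ih =>
    have hsum : (K : ℝ)⁻¹ * ∑ z, (if g z then -1 else 1) * amp g t z =
        Real.cos ((2 * t + 1) * ang g + ang g) / √K := by
      have e1 : ∑ z, (if g z then -1 else 1) * amp g t z =
          ∑ z, ((if g z = true then -(Real.sin ((2 * t + 1) * ang g) / √(cnt g)) else 0) +
            (if g z = true then 0 else Real.cos ((2 * t + 1) * ang g) / √((K : ℝ) - cnt g))) := by
        refine Finset.sum_congr rfl fun z _ => ?_
        rw [ih z]
        by_cases hz : g z = true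
        · simp [hz]
        · simp [hz]
      rw [e1, Finset.sum_add_distrib]
      have e2 : ∑ z, (if g z = true then -(Real.sin ((2 * t + 1) * ang g) / √(cnt g)) else 0) =
          -(√(cnt g) * Real.sin ((2 * t + 1) * ang g)) := by
        rw [← Finset.sum_filter, Finset.sum_const, nsmul_eq_mul]
        change (cnt g : ℝ) * _ = _
        rcases Nat.eq_zero_or_pos (cnt g) with h0 | h0
        · simp [h0]
        · have h1 : (0 : ℝ) < √(cnt g) := Real.sqrt_pos.2 (by exact_mod_cast h0)
          have h2 : (cnt g : ℝ) = √(cnt g) * √(cnt g) := (Real.mul_self_sqrt (by positivity)).symm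
          nth_rewrite 1 [h2]
          field_simp
      have e3 : ∑ z, (if g z = true then 0 else
          Real.cos ((2 * t + 1) * ang g) / √((K : ℝ) - cnt g)) =
          √((K : ℝ) - cnt g) * Real.cos ((2 * t + 1) * ang g) := by
        have : ∀ z, (if g z = true then (0 : ℝ) else
          Real.cos ((2 * t + 1) * ang g) / √((K : ℝ) - cnt g)) =
          (if ¬ (g z = true) then Real.cos ((2 * t + 1) * ang g) / √((K : ℝ) - cnt g) else 0) := by
          intro z
          by_cases hz : g z = true <;> simp [hz]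
        simp only [this]
        rw [← Finset.sum_filter, Finset.sum_const, nsmul_eq_mul]
        have hcard : (((Finset.univ.filter fun z => ¬ (g z = true)).card : ℕ) : ℝ) =
            (K : ℝ) - cnt g := by
          have := Finset.card_filter_add_card_filter_not (s := (Finset.univ : Finset (Fin K)))
            (fun z => g z = true)
          rw [Finset.card_univ, Fintype.card_fin] at this
          rw [cnt, eq_sub_iff_add_eq, add_comm]
          exact_mod_cast this
        rw [hcard]
        have hge : (0 : ℝ) ≤ (K : ℝ) - cnt g := by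
          rw [← hcard]; positivity
        rcases hge.lt_or_eq with h0 | h0
        · have h1 : (0 : ℝ) < √((K : ℝ) - cnt g) := Real.sqrt_pos.2 h0
          have h2 : ((K : ℝ) - cnt g) = √((K : ℝ) - cnt g) * √((K : ℝ) - cnt g) :=
            (Real.mul_self_sqrt hge).symm
          nth_rewrite 1 [h2]
          field_simp
        · rw [← h0]; simp
      rw [e2, e3, ← hs, ← hc, Real.cos_add]
      have h3 : (K : ℝ) = √K * √K := (Real.mul_self_sqrt hK.le).symm
      rw [eq_div_iff hsK.ne']
      nth_rewrite 1 [h3]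
      field_simp
      ring
    simp only [amp]
    rw [hsum, ih y]
    have hstep : ((2 * ((t + 1 : ℕ) : ℝ) + 1) * ang g) = ((2 * t + 1) * ang g + ang g) + ang g := by
      push_cast; ring
    rw [hstep]
    obtain ⟨α, hα⟩ : ∃ α, α = (2 * (t : ℝ) + 1) * ang g + ang g := ⟨_, rfl⟩
    have hα' : (2 * (t : ℝ) + 1) * ang g = α - ang g := by rw [hα]; ring
    rw [← hα, hα', Real.sin_sub, Real.cos_sub]
    by_cases hy : g y = true
    · rw [if_pos hy, if_pos hy, if_pos hy, eq_div_iff (hm y hy).ne', Real.sin_add]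
      have h2 := (hm y hy).ne'
      rw [← hs] at h2 ⊢
      have h4 : Real.sin (ang g) ≠ 0 := right_ne_zero_of_mul h2
      field_simp
      ring
    · rw [if_neg hy, if_neg hy, if_neg hy, eq_div_iff (hu y (by simpa using hy)).ne',
        Real.cos_add]
      have h2 := (hu y (by simpa using hy)).ne'
      rw [← hc] at h2 ⊢
      have h4 : Real.cos (ang g) ≠ 0 := right_ne_zero_of_mul h2
      field_simp
      ring

theorem sum_amp_sq (g : Fin K → Bool) (t : ℕ) :
    ∑ y, (if g y = true then (amp g t y) ^ 2 else 0) = Real.sin ((2 * t + 1) * ang g) ^ 2 := by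
  have : ∀ y, (if g y = true then (amp g t y) ^ 2 else 0) =
      if g y = true then (Real.sin ((2 * t + 1) * ang g) / √(cnt g)) ^ 2 else 0 := by
    intro y
    by_cases hy : g y = true
    · rw [if_pos hy, if_pos hy, amp_eq, if_pos hy]
    · rw [if_neg hy, if_neg hy]
  simp only [this]
  rw [← Finset.sum_filter, Finset.sum_const, nsmul_eq_mul]
  change (cnt g : ℝ) * _ = _
  rcases Nat.eq_zero_or_pos (cnt g) with h0 | h0
  · simp [h0, ang]
  · have h1 : (0 : ℝ) < cnt g := by exact_mod_cast h0
    rw [div_pow, Real.sq_sqrt h1.le]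
    field_simp

end Pool.Agent.H18.Clean
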